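import Mathlib

/-! The smooth structure on the quotient of a manifold by a free smooth involution. -/

set_option autoImplicit false

open scoped Manifold ContDiff Topology
open Set

namespace Pool.Agent.H69.QuotMfd

variable {E H T K : Type} [NormedAddCommGroup E] [NormedSpace ℝ E] [TopologicalSpace H]
  (I : ModelWithCorners ℝ E H) [TopologicalSpace T] [ChartedSpace H T]
  [TopologicalSpace K] {π : T → K} (hπ : IsLocalHomeomorph π)

/-- the local inverses composed with the projection are smooth -/
theorem switch [T2Space T] (σ : T → T) (hσ : ContMDiff I I ∞ σ) (hne : ∀ x, σ x ≠ x)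
    (hfib : ∀ x y, π x = π y → y = x ∨ y = σ x) (x y : T)
    (hy : π y ∈ (hπ.localInverseAt x).source) :
    ContMDiffAt I I ∞ (fun z => hπ.localInverseAt x (π z)) y := by
  have hs : ∀ᶠ z in 𝓝 y, π z ∈ (hπ.localInverseAt x).source :=
    hπ.continuous.continuousAt.eventually ((hπ.localInverseAt x).open_source.mem_nhds hy)
  have hor : ∀ᶠ z in 𝓝 y, hπ.localInverseAt x (π z) = z ∨ hπ.localInverseAt x (π z) = σ z := by
    filter_upwards [hs] with z hz
    exact hfib z _ (hπ.apply_localInverseAt_of_mem hz).symm
  have hc : ContinuousAt (fun z => hπ.localInverseAt x (π z)) y :=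
    ContinuousAt.comp (g := hπ.localInverseAt x) ((hπ.localInverseAt x).continuousAt hy)
      hπ.continuous.continuousAt
  rcases hor.self_of_nhds with h | h
  · have h1 : ∀ᶠ z in 𝓝 y, hπ.localInverseAt x (π z) ≠ σ z := by
      have h2 : ContinuousAt (fun z => (hπ.localInverseAt x (π z), σ z)) y :=
        hc.prodMk hσ.continuous.continuousAt
      refine h2.eventually (isClosed_diagonal.isOpen_compl.mem_nhds ?_)
      intro h3
      have h4 : hπ.localInverseAt x (π y) = σ y := h3
      exact hne y (h4.symm.trans h)
    have h5 : (fun z => hπ.localInverseAt x (π z)) =ᶠ[𝓝 y] fun z => z := by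
      filter_upwards [hor, h1] with z h6 h7
      exact h6.resolve_right h7
    exact contMDiffAt_id.congr_of_eventuallyEq h5
  · have h1 : ∀ᶠ z in 𝓝 y, hπ.localInverseAt x (π z) ≠ z := by
      have h2 : ContinuousAt (fun z => (hπ.localInverseAt x (π z), z)) y :=
        hc.prodMk continuousAt_id
      refine h2.eventually (isClosed_diagonal.isOpen_compl.mem_nhds ?_)
      intro h3
      have h4 : hπ.localInverseAt x (π y) = y := h3
      exact hne y (h.symm.trans h4)
    have h5 : (fun z => hπ.localInverseAt x (π z)) =ᶠ[𝓝 y] σ := by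
      filter_upwards [hor, h1] with z h6 h7
      exact h6.resolve_left h7
    exact (hσ y).congr_of_eventuallyEq h5

variable [IsManifold I ∞ T]

theorem isManifold (hsw : ∀ x y, π y ∈ (hπ.localInverseAt x).source →
      ContMDiffAt I I ∞ (fun z => hπ.localInverseAt x (π z)) y)
    {g : K → T} (hg : Function.RightInverse g π) :
    @IsManifold ℝ _ E _ _ H _ I ∞ K _ (hπ.chartedSpaceOfRightInverse hg) := by
  let _ : ChartedSpace H K := hπ.chartedSpaceOfRightInverse hg
  refine isManifold_of_contDiffOn I ∞ K ?_
  rintro e e' ⟨q, rfl⟩ ⟨r, rfl⟩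
  intro z hz
  obtain ⟨hz1, hz2⟩ := hz
  have hz3 := hz1
  rw [mem_preimage, OpenPartialHomeomorph.trans_source, OpenPartialHomeomorph.symm_source] at hz3
  obtain ⟨h1, h2⟩ := hz3
  rw [OpenPartialHomeomorph.trans_target] at h1
  rw [mem_preimage, OpenPartialHomeomorph.trans_source] at h2
  obtain ⟨h11, h12⟩ := h1
  obtain ⟨h21, h22⟩ := h2
  have hI : I (I.symm z) = z := I.right_inv hz2
  have e1 : ∀ v : H, ((hπ.localInverseAt (g q)).trans (chartAt H (g q))).symm v =
      π ((chartAt H (g q)).symm v) := by
    intro v
    rw [OpenPartialHomeomorph.coe_trans_symm]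
    show (hπ.localInverseAt (g q)).symm ((chartAt H (g q)).symm v) = _
    rw [hπ.localInverseAt_symm]
  rw [e1] at h21 h22
  have key : ContMDiffAt I I ∞
      (fun v : H => chartAt H (g r) (hπ.localInverseAt (g r) (π ((chartAt H (g q)).symm v))))
      (I.symm z) := by
    have k1 : ContMDiffAt I I ∞ (chartAt H (g q)).symm (I.symm z) :=
      (contMDiffOn_chart_symm (I := I) (n := ∞) (x := g q) _ h11).contMDiffAt
        ((chartAt H (g q)).open_target.mem_nhds h11)
    have k2 := hsw (g r) ((chartAt H (g q)).symm (I.symm z)) h21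
    have k3 : ContMDiffAt I I ∞ (chartAt H (g r))
        (hπ.localInverseAt (g r) (π ((chartAt H (g q)).symm (I.symm z)))) :=
      (contMDiffOn_chart (I := I) (n := ∞) (x := g r) _ h22).contMDiffAt
        ((chartAt H (g r)).open_source.mem_nhds h22)
    have k5 : ContMDiffAt I I ∞
        (fun v : H => hπ.localInverseAt (g r) (π ((chartAt H (g q)).symm v))) (I.symm z) :=
      ContMDiffAt.comp (g := fun z => hπ.localInverseAt (g r) (π z)) (I.symm z) k2 k1
    exact ContMDiffAt.comp (I.symm z) k3 k5
  have k4 := (contMDiffAt_iff.1 key).2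
  simp only [extChartAt_self_eq, hI] at k4
  have k6 : ⇑(extChartAt I (I.symm z)).symm = I.symm := by
    funext v
    rfl
  rw [k6] at k4
  have k7 : I ∘ ⇑(((hπ.localInverseAt (g q)).trans (chartAt H (g q))).symm.trans
      ((hπ.localInverseAt (g r)).trans (chartAt H (g r)))) ∘ I.symm =
      I ∘ (fun v => chartAt H (g r) (hπ.localInverseAt (g r)
        (π ((chartAt H (g q)).symm v)))) ∘ I.symm := by
    funext v
    simp only [Function.comp, OpenPartialHomeomorph.coe_trans]
    rw [e1]
  rw [k7]
  exact k4.mono inter_subset_right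

/-- the projection is a local diffeomorphism -/
theorem isLocalDiffeomorph (hsw : ∀ x y, π y ∈ (hπ.localInverseAt x).source →
      ContMDiffAt I I ∞ (fun z => hπ.localInverseAt x (π z)) y)
    {g : K → T} (hg : Function.RightInverse g π) :
    @IsLocalDiffeomorph ℝ _ E _ _ E _ _ H _ H _ I I T _ _ K _
      (hπ.chartedSpaceOfRightInverse hg) ∞ π := by
  let _ : ChartedSpace H K := hπ.chartedSpaceOfRightInverse hg
  have _ : IsManifold I ∞ K := isManifold I hπ hsw hg
  have hc : ∀ m : K, chartAt H m = (hπ.localInverseAt (g m)).trans (chartAt H (g m)) :=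
    fun m => rfl
  have e1 : ∀ (m : K) (v : H), (chartAt H m).symm v = π ((chartAt H (g m)).symm v) := by
    intro m v
    rw [hc, OpenPartialHomeomorph.coe_trans_symm]
    show (hπ.localInverseAt (g m)).symm ((chartAt H (g m)).symm v) = _
    rw [hπ.localInverseAt_symm]
  -- the projection is smooth
  have hsm : ContMDiff I I ∞ π := by
    intro y
    have hy : π y ∈ (hπ.localInverseAt (g (π y))).source := by
      have := hπ.apply_self_mem_localInverseAt_source (x := g (π y))
      rwa [hg] at this
    have hy2 : hπ.localInverseAt (g (π y)) (π y) ∈ (chartAt H (g (π y))).source := by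
      have h1 := hπ.localInverseAt_apply_self (x := g (π y))
      rw [hg] at h1
      rw [h1]
      exact mem_chart_source H _
    have k1 : ContMDiffAt I I ∞
        (fun z => chartAt H (g (π y)) (hπ.localInverseAt (g (π y)) (π z))) y :=
      ContMDiffAt.comp (g := chartAt H (g (π y))) y
        ((contMDiffOn_chart (I := I) (n := ∞) (x := g (π y)) _ hy2).contMDiffAt
          ((chartAt H (g (π y))).open_source.mem_nhds hy2)) (hsw (g (π y)) y hy)
    have hy3 : chartAt H (π y) (π y) ∈ (chartAt H (π y)).target :=
      (chartAt H (π y)).map_source (mem_chart_source H (π y))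
    have k2 : ContMDiffAt I I ∞ (chartAt H (π y)).symm
        (chartAt H (g (π y)) (hπ.localInverseAt (g (π y)) (π y))) :=
      (contMDiffOn_chart_symm (I := I) (n := ∞) (x := π y) _ hy3).contMDiffAt
        ((chartAt H (π y)).open_target.mem_nhds hy3)
    have k3 := ContMDiffAt.comp (g := (chartAt H (π y)).symm) y k2 k1
    refine k3.congr_of_eventuallyEq ?_
    have h4 : ∀ᶠ z in 𝓝 y, π z ∈ (chartAt H (π y)).source :=
      hπ.continuous.continuousAt.eventually
        ((chartAt H (π y)).open_source.mem_nhds (mem_chart_source H (π y)))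
    filter_upwards [h4] with z hz
    exact ((chartAt H (π y)).left_inv hz).symm
  -- the local inverses are smooth
  have hinv : ∀ x : T, ContMDiffOn I I ∞ (hπ.localInverseAt x) (hπ.localInverseAt x).source := by
    intro x m hm
    have hm1 : chartAt H m m ∈ (chartAt H m).target :=
      (chartAt H m).map_source (mem_chart_source H m)
    have hm2 : chartAt H m m ∈ (chartAt H (g m)).target := by
      have := hm1
      rw [hc, OpenPartialHomeomorph.trans_target] at this
      exact this.1
    have hm3 : π ((chartAt H (g m)).symm (chartAt H m m)) = m := by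
      rw [← e1]
      exact (chartAt H m).left_inv (mem_chart_source H m)
    have k1 : ContMDiffAt I I ∞ (chartAt H (g m)).symm (chartAt H m m) :=
      (contMDiffOn_chart_symm (I := I) (n := ∞) (x := g m) _ hm2).contMDiffAt
        ((chartAt H (g m)).open_target.mem_nhds hm2)
    have k2 : ContMDiffAt I I ∞ (fun z => hπ.localInverseAt x (π z))
        ((chartAt H (g m)).symm (chartAt H m m)) := by
      refine hsw x _ ?_
      rw [hm3]
      exact hm
    have k3 : ContMDiffAt I I ∞ (chartAt H m) m :=
      (contMDiffOn_chart (I := I) (n := ∞) (x := m) _ (mem_chart_source H m)).contMDiffAt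
        ((chartAt H m).open_source.mem_nhds (mem_chart_source H m))
    have k4 := ContMDiffAt.comp (g := fun z => hπ.localInverseAt x (π z)) _ k2 k1
    have k5 := ContMDiffAt.comp m k4 k3
    refine (k5.congr_of_eventuallyEq ?_).contMDiffWithinAt
    filter_upwards [(chartAt H m).open_source.mem_nhds (mem_chart_source H m)] with m' hm'
    show hπ.localInverseAt x m' = hπ.localInverseAt x (π ((chartAt H (g m)).symm (chartAt H m m')))
    rw [← e1, (chartAt H m).left_inv hm']
  intro x
  refine ⟨{ toPartialEquiv := (hπ.localInverseAt x).symm.toPartialEquiv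
            open_source := (hπ.localInverseAt x).symm.open_source
            open_target := (hπ.localInverseAt x).symm.open_target
            contMDiffOn_toFun := ?_
            contMDiffOn_invFun := ?_ }, hπ.self_mem_localInverseAt_target, ?_⟩
  · show ContMDiffOn I I ∞ (hπ.localInverseAt x).symm (hπ.localInverseAt x).target
    rw [hπ.localInverseAt_symm]
    exact hsm.contMDiffOn
  · exact hinv x
  · intro z _
    exact (congrFun (hπ.localInverseAt_symm (x := x)) z).symm

end Pool.Agent.H69.QuotMfd
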