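import Pool.Agent.H69.SkewKlein
import Pool.Agent.H69.QuotMfd

/-! The Klein bottle as a smooth manifold. -/

set_option autoImplicit false

open scoped Manifold ContDiff Topology
open Metric

namespace Pool.Agent.H69.KleinMfd

open Pool.Agent.H69.SkewTorus Pool.Agent.H69.SkewKlein

theorem refl_mem (w : S1) : (!₂[(w : E2) 0, -(w : E2) 1] : E2) ∈ sphere (0 : E2) 1 := by
  rw [mem_sphere_zero_iff_norm, EuclideanSpace.norm_eq, Real.sqrt_eq_one]
  have := unit2 w
  simp only [Fin.sum_univ_two, Real.norm_eq_abs, sq_abs]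
  show (w : E2) 0 ^ 2 + (-(w : E2) 1) ^ 2 = 1
  linarith [this]

/-- the reflection `w ↦ conj w` of the unit circle -/
noncomputable def refl (w : S1) : S1 := ⟨!₂[(w : E2) 0, -(w : E2) 1], refl_mem w⟩

/-- the free involution `(z, w) ↦ (-z, conj w)` of the torus -/
noncomputable def invol (x : T2) : T2 := (-x.1, refl x.2)

theorem refl_coe0 (w : S1) : (refl w : E2) 0 = (w : E2) 0 := rfl
theorem refl_coe1 (w : S1) : (refl w : E2) 1 = -(w : E2) 1 := rfl

theorem refl_refl (w : S1) : refl (refl w) = w := by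
  apply Subtype.ext
  apply ext2
  · rw [refl_coe0, refl_coe0]
  · rw [refl_coe1, refl_coe1, neg_neg]

theorem invol_invol (x : T2) : invol (invol x) = x := by
  show (-(-x.1), refl (refl x.2)) = x
  rw [refl_refl, neg_neg]

theorem refl_smooth : ContMDiff (𝓡 1) (𝓡 1) ∞ refl := by
  have h1 : ContMDiff (𝓡 1) 𝓘(ℝ, E2) ∞ ((↑) : S1 → E2) :=
    contMDiff_coe_sphere (m := ∞) (n := 1) (E := E2)
  have h2 : ContDiff ℝ ∞ (fun v : E2 => (!₂[v 0, -v 1] : E2)) := by
    rw [contDiff_euclidean]
    intro i
    fin_cases i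
    · exact (EuclideanSpace.proj (0 : Fin 2) : E2 →L[ℝ] ℝ).contDiff
    · exact (EuclideanSpace.proj (1 : Fin 2) : E2 →L[ℝ] ℝ).contDiff.neg
  have h3 : ContMDiff (𝓡 1) 𝓘(ℝ, E2) ∞ (fun w : S1 => (!₂[(w : E2) 0, -(w : E2) 1] : E2)) :=
    h2.contMDiff.comp h1
  exact h3.codRestrict_sphere fun w => (refl w).2

theorem invol_smooth : ContMDiff ((𝓡 1).prod (𝓡 1)) ((𝓡 1).prod (𝓡 1)) ∞ invol := by
  have h1 : ContMDiff (𝓡 1) (𝓡 1) ∞ (fun w : S1 => -w) := contMDiff_neg_sphere
  exact (h1.comp contMDiff_fst).prodMk (refl_smooth.comp contMDiff_snd)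

theorem neg_ne (z : S1) : -z ≠ z := by
  intro h
  have h1 : -(z : E2) = z := congrArg Subtype.val h
  have h2 : (z : E2) = 0 := by
    have h3 : (2 : ℝ) • (z : E2) = 0 := by
      rw [two_smul]
      nth_rewrite 1 [← h1]
      exact neg_add_cancel _
    exact (smul_eq_zero.1 h3).resolve_left two_ne_zero
  have h4 := unit2 z
  rw [h2] at h4
  simp at h4

theorem invol_ne (x : T2) : invol x ≠ x := fun h => neg_ne x.1 (congrArg Prod.fst h)

/-- the unit `1` acts trivially and `-1` acts as the involution -/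
noncomputable def act (u : ℤˣ) (x : T2) : T2 := if u = 1 then x else invol x

theorem act_one (x : T2) : act 1 x = x := if_pos rfl

theorem act_mul (u v : ℤˣ) (x : T2) : act (u * v) x = act u (act v x) := by
  show (if u * v = 1 then x else invol x) =
    (if u = 1 then (if v = 1 then x else invol x) else invol (if v = 1 then x else invol x))
  rcases Int.units_eq_one_or u with rfl | rfl <;> rcases Int.units_eq_one_or v with rfl | rfl <;>
    simp [invol_invol]

/-- the group with two elements acts on the torus through the involution -/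
noncomputable instance action : MulAction ℤˣ T2 where
  smul := act
  one_smul := act_one
  mul_smul := act_mul

theorem neg_smul' (x : T2) : (-1 : ℤˣ) • x = invol x := by
  show (if (-1 : ℤˣ) = 1 then x else invol x) = invol x
  rw [if_neg (by decide)]

instance : ContinuousConstSMul ℤˣ T2 where
  continuous_const_smul u := by
    rcases Int.units_eq_one_or u with rfl | rfl
    · have : (fun x : T2 => (1 : ℤˣ) • x) = fun x => x := funext fun x => one_smul _ x
      rw [this]; exact continuous_id
    · have : (fun x : T2 => (-1 : ℤˣ) • x) = invol := funext neg_smul'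
      rw [this]; exact invol_smooth.continuous

instance : IsCancelSMul ℤˣ T2 := by
  rw [isCancelSMul_iff_eq_one_of_smul_eq]
  intro u x h
  rcases Int.units_eq_one_or u with rfl | rfl
  · rfl
  · rw [neg_smul'] at h
    exact absurd h (invol_ne x)

/-- The Klein bottle: the quotient of the torus by the free involution `(z, w) ↦ (-z, conj w)`. -/
def Klein : Type := MulAction.orbitRel.Quotient ℤˣ T2

/-- the quotient topology -/
noncomputable instance kleinTop : TopologicalSpace Klein :=
  inferInstanceAs (TopologicalSpace (MulAction.orbitRel.Quotient ℤˣ T2))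

/-- the charts of Mathlib for quotients of manifolds by free actions -/
noncomputable instance kleinCharts :
    ChartedSpace (ModelProd (EuclideanSpace ℝ (Fin 1)) (EuclideanSpace ℝ (Fin 1))) Klein :=
  inferInstanceAs (ChartedSpace (ModelProd (EuclideanSpace ℝ (Fin 1)) (EuclideanSpace ℝ (Fin 1)))
    (MulAction.orbitRel.Quotient ℤˣ T2))

instance : T2Space Klein := inferInstanceAs (T2Space (MulAction.orbitRel.Quotient ℤˣ T2))

/-- the projection of the torus to the Klein bottle -/
noncomputable def proj : T2 → Klein := Quotient.mk (MulAction.orbitRel ℤˣ T2)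

theorem proj_eq (x y : T2) : proj x = proj y ↔ y = x ∨ y = invol x := by
  show (Quotient.mk (MulAction.orbitRel ℤˣ T2) x = Quotient.mk (MulAction.orbitRel ℤˣ T2) y) ↔ _
  rw [Quotient.eq]
  show x ∈ MulAction.orbit ℤˣ y ↔ _
  constructor
  · rintro ⟨u, hu⟩
    rcases Int.units_eq_one_or u with rfl | rfl
    · left
      have : (1 : ℤˣ) • y = x := hu
      rwa [one_smul] at this
    · right
      have h : (-1 : ℤˣ) • y = x := hu
      rw [neg_smul'] at h
      rw [← h, invol_invol]
  · rintro (h | h)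
    · exact ⟨1, by show (1 : ℤˣ) • y = x; rw [one_smul, h]⟩
    · exact ⟨-1, by show (-1 : ℤˣ) • y = x; rw [neg_smul', h, invol_invol]⟩

theorem kleinRel_iff (x y : T2) : KleinRel x y ↔ y = x ∨ y = invol x := by
  refine or_congr Iff.rfl ?_
  constructor
  · rintro ⟨h1, h2, h3⟩
    exact Prod.ext (Subtype.ext h1) (Subtype.ext (ext2 h2 h3))
  · rintro rfl
    exact ⟨rfl, rfl, rfl⟩

theorem proj_local : IsLocalHomeomorph (Quotient.mk (MulAction.orbitRel ℤˣ T2)) :=
  (isQuotientCoveringMap_quotientMk_of_properlyDiscontinuousSMul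
    (G := ℤˣ) (E := T2)).isCoveringMap.isLocalHomeomorph

theorem sw (x y : T2) (h : Quotient.mk (MulAction.orbitRel ℤˣ T2) y ∈
    (proj_local.localInverseAt x).source) :
    ContMDiffAt ((𝓡 1).prod (𝓡 1)) ((𝓡 1).prod (𝓡 1)) ∞
      (fun z => proj_local.localInverseAt x (Quotient.mk (MulAction.orbitRel ℤˣ T2) z)) y :=
  QuotMfd.switch _ proj_local invol invol_smooth invol_ne (fun a b h => (proj_eq a b).1 h) x y h

theorem raw_isManifold :
    IsManifold ((𝓡 1).prod (𝓡 1)) ∞ (MulAction.orbitRel.Quotient ℤˣ T2) :=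
  QuotMfd.isManifold _ proj_local sw Quotient.mk_surjective.hasRightInverse.choose_spec

theorem raw_isLocalDiffeomorph :
    IsLocalDiffeomorph ((𝓡 1).prod (𝓡 1)) ((𝓡 1).prod (𝓡 1)) ∞
      (Quotient.mk (MulAction.orbitRel ℤˣ T2)) :=
  QuotMfd.isLocalDiffeomorph _ proj_local sw Quotient.mk_surjective.hasRightInverse.choose_spec

instance klein_isManifold : IsManifold ((𝓡 1).prod (𝓡 1)) ∞ Klein := raw_isManifold

theorem proj_isLocalDiffeomorph :
    IsLocalDiffeomorph ((𝓡 1).prod (𝓡 1)) ((𝓡 1).prod (𝓡 1)) ∞ proj := raw_isLocalDiffeomorph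

theorem proj_surj : Function.Surjective proj := Quotient.mk_surjective

end Pool.Agent.H69.KleinMfd
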