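import Pool.Agent.H69.SkewQuot
import Pool.Agent.H69.KleinMfd

/-! Klein bottles. -/

set_option autoImplicit false

open scoped Manifold ContDiff

namespace Pool.Agent.H69.KleinBottle

open Pool.Agent.H69.SkewTorus Pool.Agent.H69.SkewKlein Pool.Agent.H69.SkewQuot
  Pool.Agent.H69.KleinMfd

/-- The smooth manifold `M` is a Klein bottle: it is Hausdorff and there is a surjective local
diffeomorphism from the torus `S¹ × S¹` to `M` whose fibres are the orbits of the involution
`(z, w) ↦ (-z, conj w)`. -/
def IsKleinBottle {E H : Type} [NormedAddCommGroup E] [NormedSpace ℝ E] [TopologicalSpace H]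
    (I : ModelWithCorners ℝ E H) (M : Type) [TopologicalSpace M] [ChartedSpace H M] : Prop :=
  IsManifold I ∞ M ∧ T2Space M ∧ ∃ π : T2 → M, IsLocalDiffeomorph ((𝓡 1).prod (𝓡 1)) I ∞ π ∧
    Function.Surjective π ∧ ∀ x y : T2, π x = π y ↔ KleinRel x y

/-- There is a Klein bottle, with charts in the product of two lines. -/
def KleinBottleExists : Prop :=
  ∃ (M : Type) (_ : TopologicalSpace M)
    (_ : ChartedSpace (ModelProd (EuclideanSpace ℝ (Fin 1)) (EuclideanSpace ℝ (Fin 1))) M),
    IsKleinBottle ((𝓡 1).prod (𝓡 1)) M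

theorem klein_is : IsKleinBottle ((𝓡 1).prod (𝓡 1)) Klein :=
  ⟨inferInstance, inferInstance, proj, proj_isLocalDiffeomorph, proj_surj, fun x y => by
    rw [kleinRel_iff, proj_eq]⟩

theorem klein_exists : KleinBottleExists := ⟨Klein, inferInstance, inferInstance, klein_is⟩

theorem embeds {E H : Type} [NormedAddCommGroup E] [NormedSpace ℝ E] [TopologicalSpace H]
    (I : ModelWithCorners ℝ E H) (M : Type) [TopologicalSpace M] [ChartedSpace H M]
    (hM : IsKleinBottle I M) : ∃ F : M → EuclideanSpace ℝ (Fin 8), TotallySkewEmb I F := by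
  obtain ⟨_, _, π, h1, h2, h3⟩ := hM
  exact descend I _ klein8.1 π h1 h2 fun x y => by rw [klein8.2, h3]

end Pool.Agent.H69.KleinBottle
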