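import Mathlib

/-! Totally skew maps of the two-sphere: definitions and the chain rule. -/

set_option autoImplicit false

open scoped Manifold ContDiff
open Metric

namespace Pool.Agent.H69.Skew

/-- the unit sphere of Euclidean three-space -/
abbrev S2 : Type := sphere (0 : EuclideanSpace ℝ (Fin 3)) 1

/-- Two affine subspaces are skew: they are disjoint and their direction spaces meet only in zero. -/
def Skew {N : ℕ} (A B : AffineSubspace ℝ (EuclideanSpace ℝ (Fin N))) : Prop :=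
  (A : Set (EuclideanSpace ℝ (Fin N))) ∩ B = ∅ ∧ A.direction ⊓ B.direction = ⊥

/-- the map is smooth -/
def Smooth {N : ℕ} (f : S2 → EuclideanSpace ℝ (Fin N)) : Prop := ContMDiff (𝓡 2) (𝓡 N) ∞ f

/-- the derivative of the map at a point -/
noncomputable def Dm {N : ℕ} (f : S2 → EuclideanSpace ℝ (Fin N)) (x : S2) :
    EuclideanSpace ℝ (Fin 2) →L[ℝ] EuclideanSpace ℝ (Fin N) := mfderiv (𝓡 2) (𝓡 N) f x

/-- the affine tangent space of a map of the two-sphere at a point -/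
noncomputable def tangentAff {N : ℕ} (f : S2 → EuclideanSpace ℝ (Fin N)) (x : S2) :
    AffineSubspace ℝ (EuclideanSpace ℝ (Fin N)) :=
  AffineSubspace.mk' (f x) (LinearMap.range (Dm f x).toLinearMap)

/-- The map is a smooth immersion, and its affine tangent spaces at points with different images are
skew. -/
def TotallySkewImmersion {N : ℕ} (f : S2 → EuclideanSpace ℝ (Fin N)) : Prop :=
  Smooth f ∧ (∀ x, Function.Injective (Dm f x)) ∧
    ∀ x y, f x ≠ f y → Skew (tangentAff f x) (tangentAff f y)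

/-- a totally skew embedding -/
def TotallySkewEmbedding {N : ℕ} (f : S2 → EuclideanSpace ℝ (Fin N)) : Prop :=
  TotallySkewImmersion f ∧ Topology.IsEmbedding f

instance factS2 : Fact (Module.finrank ℝ (EuclideanSpace ℝ (Fin 3)) = 2 + 1) := ⟨by simp⟩

/-- the derivative of the inclusion -/
theorem chain {N : ℕ} (g : EuclideanSpace ℝ (Fin 3) → EuclideanSpace ℝ (Fin N)) (x : S2)
    (hg : DifferentiableAt ℝ g (x : EuclideanSpace ℝ (Fin 3))) (u : TangentSpace (𝓡 2) x) :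
    (mfderiv (𝓡 2) (𝓡 N) (fun z : S2 => g z) x u : EuclideanSpace ℝ (Fin N)) =
      fderiv ℝ g x (mfderiv (𝓡 2) 𝓘(ℝ, EuclideanSpace ℝ (Fin 3))
        ((↑) : S2 → EuclideanSpace ℝ (Fin 3)) x u) := by
  have h1 : MDifferentiableAt (𝓡 2) 𝓘(ℝ, EuclideanSpace ℝ (Fin 3))
      ((↑) : S2 → EuclideanSpace ℝ (Fin 3)) x :=
    (contMDiff_coe_sphere (m := 1) (n := 2) (E := EuclideanSpace ℝ (Fin 3)) x).mdifferentiableAt
      one_ne_zero
  have h2 : MDifferentiableAt 𝓘(ℝ, EuclideanSpace ℝ (Fin 3)) (𝓡 N) g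
      (x : EuclideanSpace ℝ (Fin 3)) := hg.mdifferentiableAt
  have h3 := mfderiv_comp x h2 h1
  have h4 : (g ∘ ((↑) : S2 → EuclideanSpace ℝ (Fin 3))) = fun z : S2 => g z := rfl
  rw [h4] at h3
  rw [h3]
  rw [ContinuousLinearMap.comp_apply, mfderiv_eq_fderiv]
  rfl

/-- tangent vectors are orthogonal to the point -/
theorem tangent_perp (x : S2) (u : TangentSpace (𝓡 2) x) :
    inner ℝ (x : EuclideanSpace ℝ (Fin 3)) (mfderiv (𝓡 2) 𝓘(ℝ, EuclideanSpace ℝ (Fin 3))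
        ((↑) : S2 → EuclideanSpace ℝ (Fin 3)) x u) = (0 : ℝ) := by
  have h := range_mfderiv_coe_sphere (n := 2) (E := EuclideanSpace ℝ (Fin 3)) x
  have h1 : mfderiv (𝓡 2) 𝓘(ℝ, EuclideanSpace ℝ (Fin 3))
      ((↑) : S2 → EuclideanSpace ℝ (Fin 3)) x u ∈ (ℝ ∙ (x : EuclideanSpace ℝ (Fin 3)))ᗮ := by
    rw [← h]
    exact ⟨u, rfl⟩
  exact Submodule.mem_orthogonal_singleton_iff_inner_right.1 h1

/-- the criterion -/
theorem criterion {N : ℕ} (g : EuclideanSpace ℝ (Fin 3) → EuclideanSpace ℝ (Fin N))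
    (hg : ∀ x : S2, ContDiffAt ℝ ∞ g x)
    (hi : ∀ x : S2, ∀ w : EuclideanSpace ℝ (Fin 3), inner ℝ (x : EuclideanSpace ℝ (Fin 3)) w = (0 : ℝ) →
      fderiv ℝ g x w = 0 → w = 0)
    (hs : ∀ x y : S2, g x ≠ g y → ∀ u v : EuclideanSpace ℝ (Fin 3),
      inner ℝ (x : EuclideanSpace ℝ (Fin 3)) u = (0 : ℝ) →
      inner ℝ (y : EuclideanSpace ℝ (Fin 3)) v = (0 : ℝ) → ∀ t : ℝ,
      fderiv ℝ g x u - fderiv ℝ g y v + t • (g x - g y) = 0 → u = 0 ∧ t = 0) :
    TotallySkewImmersion (fun z : S2 => g z) := by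
  have hd : ∀ x : S2, DifferentiableAt ℝ g (x : EuclideanSpace ℝ (Fin 3)) := fun x =>
    (hg x).differentiableAt (by simp)
  refine ⟨fun x => ?_, fun x => ?_, fun x y hxy => ⟨?_, ?_⟩⟩
  · exact ContMDiffAt.comp (x : S2) (I' := 𝓘(ℝ, EuclideanSpace ℝ (Fin 3))) (hg x).contMDiffAt
      (contMDiff_coe_sphere (m := ∞) (n := 2) (E := EuclideanSpace ℝ (Fin 3)) x)
  · rw [injective_iff_map_eq_zero]
    intro u hu
    have hu := (chain g x (hd x) u).symm.trans hu
    have h1 := hi x _ (tangent_perp x u) hu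
    have h2 := mfderiv_coe_sphere_injective (n := 2) (E := EuclideanSpace ℝ (Fin 3)) x
    exact (injective_iff_map_eq_zero _).1 h2 u h1
  · rw [Set.eq_empty_iff_forall_notMem]
    rintro p ⟨h1, h2⟩
    rw [SetLike.mem_coe, tangentAff, AffineSubspace.mem_mk'] at h1 h2
    obtain ⟨u, hu⟩ := h1
    obtain ⟨v, hv⟩ := h2
    have hu' : (mfderiv (𝓡 2) (𝓡 N) (fun z : S2 => g z) x u : EuclideanSpace ℝ (Fin N)) = p - g x := hu
    have hv' : (mfderiv (𝓡 2) (𝓡 N) (fun z : S2 => g z) y v : EuclideanSpace ℝ (Fin N)) = p - g y := hv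
    rw [chain g x (hd x) u] at hu'
    rw [chain g y (hd y) v] at hv'
    have := (hs x y hxy _ _ (tangent_perp x u) (tangent_perp y v) 1 (by
      rw [hu', hv', one_smul]; abel)).2
    exact one_ne_zero this
  · rw [Submodule.eq_bot_iff]
    rintro p ⟨h1, h2⟩
    rw [SetLike.mem_coe, tangentAff, AffineSubspace.direction_mk'] at h1 h2
    obtain ⟨u, hu⟩ := h1
    obtain ⟨v, hv⟩ := h2
    have hu' : (mfderiv (𝓡 2) (𝓡 N) (fun z : S2 => g z) x u : EuclideanSpace ℝ (Fin N)) = p := hu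
    have hv' : (mfderiv (𝓡 2) (𝓡 N) (fun z : S2 => g z) y v : EuclideanSpace ℝ (Fin N)) = p := hv
    rw [chain g x (hd x) u] at hu'
    rw [chain g y (hd y) v] at hv'
    have := (hs x y hxy _ _ (tangent_perp x u) (tangent_perp y v) 0 (by
      rw [hu', hv']; simp)).1
    rw [← hu', this, map_zero]

/-- one coordinate of the derivative -/
theorem fderiv_coord {N : ℕ} (g : EuclideanSpace ℝ (Fin 3) → EuclideanSpace ℝ (Fin N))
    (x w : EuclideanSpace ℝ (Fin 3)) (hg : DifferentiableAt ℝ g x) (i : Fin N)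
    (L : EuclideanSpace ℝ (Fin 3) →L[ℝ] ℝ) (hL : HasFDerivAt (fun z => g z i) L x) :
    fderiv ℝ g x w i = L w := by
  have h1 : HasFDerivAt (fun z => g z i) ((EuclideanSpace.proj i).comp (fderiv ℝ g x)) x :=
    (EuclideanSpace.proj i : EuclideanSpace ℝ (Fin N) →L[ℝ] ℝ).hasFDerivAt.comp x hg.hasFDerivAt
  rw [← h1.unique hL]
  rfl

end Pool.Agent.H69.Skew
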