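import Pool.Agent.H69.SkewTorusDefs

/-! A totally skew embedding of the Klein bottle in eight-space. -/

set_option autoImplicit false

open scoped Manifold ContDiff
open Metric

namespace Pool.Agent.H69.SkewKlein

open Pool.Agent.H69.Skew (Skew)
open Pool.Agent.H69.SkewTorus

/-- the first circle coordinate as a complex number -/
noncomputable def Zc : E2 × E2 →L[ℝ] ℂ :=
  Complex.ofRealCLM.comp ((EuclideanSpace.proj (0 : Fin 2) : E2 →L[ℝ] ℝ).comp
    (ContinuousLinearMap.fst ℝ E2 E2)) +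
  Complex.I • (Complex.ofRealCLM.comp ((EuclideanSpace.proj (1 : Fin 2) : E2 →L[ℝ] ℝ).comp
    (ContinuousLinearMap.fst ℝ E2 E2)))

/-- the cosine of the second circle coordinate -/
noncomputable def Ac : E2 × E2 →L[ℝ] ℂ :=
  Complex.ofRealCLM.comp ((EuclideanSpace.proj (0 : Fin 2) : E2 →L[ℝ] ℝ).comp
    (ContinuousLinearMap.snd ℝ E2 E2))

/-- the sine of the second circle coordinate -/
noncomputable def Bc : E2 × E2 →L[ℝ] ℂ :=
  Complex.ofRealCLM.comp ((EuclideanSpace.proj (1 : Fin 2) : E2 →L[ℝ] ℝ).comp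
    (ContinuousLinearMap.snd ℝ E2 E2))

theorem Zc_apply (x : E2 × E2) : Zc x = (x.1 0 : ℂ) + Complex.I * (x.1 1 : ℂ) := rfl
theorem Ac_apply (x : E2 × E2) : Ac x = (x.2 0 : ℂ) := rfl
theorem Bc_apply (x : E2 × E2) : Bc x = (x.2 1 : ℂ) := rfl

noncomputable def psi1 (x : E2 × E2) : ℂ := Zc x * Bc x
noncomputable def psi2 (x : E2 × E2) : ℂ := Zc x * Zc x * (2 + Ac x)

noncomputable def D1 (x w : E2 × E2) : ℂ := Zc x * Bc w + Zc w * Bc x
noncomputable def D2 (x w : E2 × E2) : ℂ := 2 * Zc x * Zc w * (2 + Ac x) + Zc x * Zc x * Ac w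

/-- real coordinates on complex four-space -/
noncomputable def L : (ℂ × ℂ × ℂ × ℂ) ≃L[ℝ] EuclideanSpace ℝ (Fin 8) :=
  ContinuousLinearEquiv.ofFinrankEq (by simp [Complex.finrank_real_complex])

/-- The map: with `z = x.1` and `w = x.2` as complex numbers, `psi1 = z Im w` and
`psi2 = z^2 (2 + Re w)`, it is `(psi1, psi2, psi1 psi2, psi2^2)`. -/
noncomputable def g8 (x : E2 × E2) : EuclideanSpace ℝ (Fin 8) :=
  L (psi1 x, psi2 x, psi1 x * psi2 x, psi2 x * psi2 x)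

theorem psi1_has (x : E2 × E2) : HasFDerivAt psi1 (Zc x • Bc + Bc x • Zc) x :=
  Zc.hasFDerivAt.mul Bc.hasFDerivAt

theorem psi2_has (x : E2 × E2) :
    HasFDerivAt psi2 ((Zc x * Zc x) • Ac + (2 + Ac x) • (Zc x • Zc + Zc x • Zc)) x :=
  (Zc.hasFDerivAt.mul Zc.hasFDerivAt).mul (Ac.hasFDerivAt.const_add 2)

theorem psi1_contDiff : ContDiff ℝ ∞ psi1 := Zc.contDiff.mul Bc.contDiff

theorem psi2_contDiff : ContDiff ℝ ∞ psi2 :=
  (Zc.contDiff.mul Zc.contDiff).mul (contDiff_const.add Ac.contDiff)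

theorem g8_contDiff : ContDiff ℝ ∞ g8 :=
  L.contDiff.comp (psi1_contDiff.prodMk (psi2_contDiff.prodMk
    ((psi1_contDiff.mul psi2_contDiff).prodMk (psi2_contDiff.mul psi2_contDiff))))

theorem g8_deriv (x w : E2 × E2) : fderiv ℝ g8 x w =
    L (D1 x w, D2 x w, psi1 x * D2 x w + D1 x w * psi2 x, 2 * psi2 x * D2 x w) := by
  have h1 := psi1_has x
  have h2 := psi2_has x
  have h := L.hasFDerivAt.comp x (h1.prodMk (h2.prodMk ((h1.mul h2).prodMk (h2.mul h2))))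
  have h' : HasFDerivAt g8 _ x := h
  rw [h'.fderiv]
  simp only [ContinuousLinearMap.comp_apply, ContinuousLinearEquiv.coe_coe]
  congr 1
  refine Prod.ext ?_ (Prod.ext ?_ (Prod.ext ?_ ?_))
  · simp [D1]; ring
  · simp [D2]; ring
  · simp [D1, D2]; ring
  · simp [D2]; ring

/-- elimination over the complex numbers -/
theorem elim {A1 A2 P Q d1 d2 e1 e2 t : ℂ} (E1 : d1 - d2 + t * (A1 - A2) = 0)
    (E2 : e1 - e2 + t * (P - Q) = 0)
    (E3 : A1 * e1 + d1 * P - (A2 * e2 + d2 * Q) + t * (A1 * P - A2 * Q) = 0)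
    (E4 : 2 * P * e1 - 2 * Q * e2 + t * (P * P - Q * Q) = 0) (h : P ≠ Q) :
    2 * d1 = -(t * (A1 - A2)) ∧ 2 * e1 = -(t * (P - Q)) ∧ 2 * d2 = t * (A1 - A2) ∧
      2 * e2 = t * (P - Q) := by
  have hne : P - Q ≠ 0 := sub_ne_zero.2 h
  have h2 : (P - Q) * (2 * e1 + t * (P - Q)) = 0 := by linear_combination E4 - 2 * Q * E2
  have h3 := (mul_eq_zero.1 h2).resolve_left hne
  have h4 : (P - Q) * (2 * d1 + t * (A1 - A2)) = 0 := by
    linear_combination 2 * E3 - 2 * Q * E1 - 2 * A2 * E2 - (A1 - A2) * h3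
  have h5 := (mul_eq_zero.1 h4).resolve_left hne
  refine ⟨by linear_combination h5, by linear_combination h3, ?_, ?_⟩
  · linear_combination h5 - 2 * E1
  · linear_combination h3 - 2 * E2

theorem sq_zero' {a b : ℝ} (h : a ^ 2 + b ^ 2 = 0) : a = 0 := by
  nlinarith [sq_nonneg a, sq_nonneg b]

/-- no line is tangent twice -/
theorem noline {C S w0 w1 s0 s1 α1 β1 α2 β2 t : ℝ} (hCS : C ^ 2 + S ^ 2 = 1)
    (hw : w0 * w0 + w1 * w1 = 1) (hs : s0 * s0 + s1 * s1 = 1)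
    (a1 : 2 * (β1 * w0) = -(t * (w1 - C * s1))) (a2 : 2 * (α1 * w1) = t * (S * s1))
    (a3 : -(2 * (β1 * w1)) = -(t * ((2 + w0) - (2 + s0) * (C ^ 2 - S ^ 2))))
    (a4 : 2 * (α1 * (2 + w0)) = t * ((2 + s0) * (C * S)))
    (b1 : 2 * (β2 * s0) = t * (C * w1 - s1)) (b2 : 2 * (α2 * s1) = -(t * (S * w1)))
    (b3 : -(2 * (β2 * s1)) = t * ((2 + w0) * (C ^ 2 - S ^ 2) - (2 + s0)))
    (b4 : 2 * (α2 * (2 + s0)) = -(t * ((2 + w0) * (C * S)))) (ht : t ≠ 0) :
    S = 0 ∧ C ^ 2 = 1 ∧ w0 = s0 := by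
  have pw : 0 < 2 + w0 := by nlinarith [sq_nonneg w1, sq_nonneg (w0 + 1)]
  have ps : 0 < 2 + s0 := by nlinarith [sq_nonneg s1, sq_nonneg (s0 + 1)]
  have k1 : t * (S * (w1 * (2 + s0) * C - s1 * (2 + w0))) = 0 := by
    linear_combination (2 + w0) * a2 - w1 * a4
  have k2 : t * (S * (s1 * (2 + w0) * C - w1 * (2 + s0))) = 0 := by
    linear_combination (-(2 + s0)) * b2 + s1 * b4
  have k1' := (mul_eq_zero.1 k1).resolve_left ht
  have k2' := (mul_eq_zero.1 k2).resolve_left ht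
  by_cases hS : S = 0
  · rw [hS] at hCS a3
    have hC : C ^ 2 = 1 := by linarith
    refine ⟨hS, hC, ?_⟩
    have k3 : t * (1 - w1 * (C * s1) - w0 * s0) = 0 := by
      have : t * (w1 * (w1 - C * s1) + w0 * ((2 + w0) - (2 + s0) * (C ^ 2 - 0 ^ 2))) = 0 := by
        linear_combination w1 * a1 + w0 * a3
      rw [hC] at this
      linear_combination this - t * hw
    have k4 := (mul_eq_zero.1 k3).resolve_left ht
    have k5 : (w0 - s0) ^ 2 + (w1 - C * s1) ^ 2 = 0 := by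
      linear_combination 2 * k4 + hw + hs + s1 ^ 2 * hC
    have := (sq_zero' k5)
    linarith
  · exfalso
    have m1 := (mul_eq_zero.1 k1').resolve_left hS
    have m2 := (mul_eq_zero.1 k2').resolve_left hS
    have m3 : w1 * ((2 + s0) * S ^ 2) = 0 := by
      linear_combination (-C) * m1 - m2 + w1 * (2 + s0) * hCS
    have hw1 : w1 = 0 := (mul_eq_zero.1 m3).resolve_right (by positivity)
    rw [hw1] at m2 hw a1 a3 b1
    have m4 : s1 * (2 + w0) = 0 := by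
      rw [hw1] at m1; linear_combination -m1
    have hs1 : s1 = 0 := (mul_eq_zero.1 m4).resolve_right pw.ne'
    rw [hs1] at hs a1 b1 b3
    have hw0 : w0 ≠ 0 := by intro h; rw [h] at hw; norm_num at hw
    have hs0 : s0 ≠ 0 := by intro h; rw [h] at hs; norm_num at hs
    have hn1 : t * ((2 + w0) - (2 + s0) * (C ^ 2 - S ^ 2)) = 0 := by linear_combination a3
    have hn2 : t * ((2 + w0) * (C ^ 2 - S ^ 2) - (2 + s0)) = 0 := by linear_combination -b3
    have n1 := (mul_eq_zero.1 hn1).resolve_left ht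
    have n2 := (mul_eq_zero.1 hn2).resolve_left ht
    have n3 : (2 + w0) * ((C ^ 2 - S ^ 2) ^ 2 - 1) = 0 := by
      linear_combination (C ^ 2 - S ^ 2) * n2 - n1
    have n4 := (mul_eq_zero.1 n3).resolve_left pw.ne'
    have n5 : S ^ 2 * (S ^ 2 - 1) = 0 := by
      have : C ^ 2 = 1 - S ^ 2 := by linarith
      rw [this] at n4
      linear_combination n4 / 4
    have n6 : S ^ 2 = 1 := by
      have := (mul_eq_zero.1 n5).resolve_left (pow_ne_zero 2 hS)
      linarith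
    have n7 : C ^ 2 = 0 := by linarith
    rw [n6, n7] at n1
    linarith

theorem sign_cases {p0 p1 q0 q1 : ℝ} (hp : p0 * p0 + p1 * p1 = 1) (hq : q0 * q0 + q1 * q1 = 1)
    (h1 : p0 * p0 - p1 * p1 = q0 * q0 - q1 * q1) (h2 : p0 * p1 = q0 * q1) :
    (q0 = p0 ∧ q1 = p1) ∨ (q0 = -p0 ∧ q1 = -p1) := by
  have e : (p0 * q1 - p1 * q0) ^ 2 = 0 := by
    have e0 : p0 * p0 = q0 * q0 := by linarith
    have e1 : p1 * p1 = q1 * q1 := by linarith
    linear_combination (q1 * q1) * e0 + (q0 * q0) * e1 - 2 * q0 * q1 * h2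
  have e' : p0 * q1 - p1 * q0 = 0 := pow_eq_zero_iff (two_ne_zero) |>.1 e
  have f : (p0 * q0 + p1 * q1 - 1) * (p0 * q0 + p1 * q1 + 1) = 0 := by
    linear_combination (-(p0 * q1 - p1 * q0)) * e' + (q0 * q0 + q1 * q1) * hp + hq
  rcases mul_eq_zero.1 f with g | g
  · left
    have : (q0 - p0) ^ 2 + (q1 - p1) ^ 2 = 0 := by linear_combination hp + hq - 2 * g
    exact ⟨by linarith [sq_zero' this], by linarith [sq_zero' ((add_comm _ _).trans this)]⟩
  · right
    have : (q0 + p0) ^ 2 + (q1 + p1) ^ 2 = 0 := by linear_combination hp + hq + 2 * g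
    exact ⟨by linarith [sq_zero' this], by linarith [sq_zero' ((add_comm _ _).trans this)]⟩

theorem perp {p0 p1 u0 u1 : ℝ} (hp : p0 * p0 + p1 * p1 = 1) (hu : p0 * u0 + p1 * u1 = 0) :
    ∃ α : ℝ, u0 = -(α * p1) ∧ u1 = α * p0 := by
  refine ⟨p0 * u1 - p1 * u0, ?_, ?_⟩
  · linear_combination (-u0) * hp + p0 * hu
  · linear_combination (-u1) * hp + p1 * hu

theorem pos_b {w0 w1 : ℝ} (hw : w0 * w0 + w1 * w1 = 1) : 0 < 2 + w0 := by
  nlinarith [sq_nonneg w1, sq_nonneg (w0 + 1)]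

/-- a tangent vector killed by the second function, and by the first -/
theorem imm {p0 p1 w0 w1 u0 u1 u2 u3 : ℝ} (hp : p0 * p0 + p1 * p1 = 1)
    (hw : w0 * w0 + w1 * w1 = 1) (hu : p0 * u0 + p1 * u1 = 0) (hu' : w0 * u2 + w1 * u3 = 0)
    (r2 : 2 * (p0 * u0 - p1 * u1) * (2 + w0) + (p0 * p0 - p1 * p1) * u2 = 0)
    (i2 : 2 * (p0 * u1 + p1 * u0) * (2 + w0) + (2 * (p0 * p1)) * u2 = 0)
    (h : w1 ≠ 0 ∨ (p0 * u3 + u0 * w1 = 0 ∧ p1 * u3 + u1 * w1 = 0)) :
    (u0 = 0 ∧ u1 = 0) ∧ u2 = 0 ∧ u3 = 0 := by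
  obtain ⟨α, f0, f1⟩ := perp hp hu
  have pw := pos_b hw
  have hα : α = 0 := by
    have : α * (2 + w0) = 0 := by
      rw [f0, f1] at r2 i2
      linear_combination (1 / 2) * ((p0 * p0 - p1 * p1) * i2 - 2 * (p0 * p1) * r2) -
        α * (2 + w0) * (p0 * p0 + p1 * p1 + 1) * hp
    exact (mul_eq_zero.1 this).resolve_right pw.ne'
  rw [hα] at f0 f1
  have g0 : u0 = 0 := by linarith
  have g1 : u1 = 0 := by linarith
  have g2 : u2 = 0 := by
    rw [g0, g1] at r2 i2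
    linear_combination (p0 * p0 - p1 * p1) * r2 + 2 * (p0 * p1) * i2 -
      u2 * (p0 * p0 + p1 * p1 + 1) * hp
  refine ⟨⟨g0, g1⟩, g2, ?_⟩
  rcases h with h | ⟨h1, h2⟩
  · rw [g2] at hu'
    have : w1 * u3 = 0 := by linarith
    exact (mul_eq_zero.1 this).resolve_left h
  · rw [g0] at h1
    rw [g1] at h2
    linear_combination (-u3) * hp + p0 * h1 + p1 * h2

/-- values: when the second functions agree -/
theorem fibre {p0 p1 q0 q1 w0 w1 s0 s1 : ℝ} (hp : p0 * p0 + p1 * p1 = 1)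
    (hq : q0 * q0 + q1 * q1 = 1) (hw : w0 * w0 + w1 * w1 = 1) (hs : s0 * s0 + s1 * s1 = 1)
    (r : (p0 * p0 - p1 * p1) * (2 + w0) = (q0 * q0 - q1 * q1) * (2 + s0))
    (i : 2 * (p0 * p1) * (2 + w0) = 2 * (q0 * q1) * (2 + s0)) :
    w0 = s0 ∧ ((q0 = p0 ∧ q1 = p1) ∨ (q0 = -p0 ∧ q1 = -p1)) := by
  have pw := pos_b hw
  have ps := pos_b hs
  have hb : (2 + w0) ^ 2 = (2 + s0) ^ 2 := by
    have e1 : ((p0 * p0 - p1 * p1) * (2 + w0)) ^ 2 + (2 * (p0 * p1) * (2 + w0)) ^ 2 =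
        (2 + w0) ^ 2 := by
      linear_combination (2 + w0) ^ 2 * (p0 * p0 + p1 * p1 + 1) * hp
    have e2 : ((q0 * q0 - q1 * q1) * (2 + s0)) ^ 2 + (2 * (q0 * q1) * (2 + s0)) ^ 2 =
        (2 + s0) ^ 2 := by
      linear_combination (2 + s0) ^ 2 * (q0 * q0 + q1 * q1 + 1) * hq
    rw [← e1, ← e2, r, i]
  have hb' : (w0 - s0) * ((2 + w0) + (2 + s0)) = 0 := by linear_combination hb
  have h0 : w0 = s0 := by
    have := (mul_eq_zero.1 hb').resolve_right (by positivity)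
    linarith
  refine ⟨h0, ?_⟩
  rw [← h0] at r i
  refine sign_cases hp hq (mul_right_cancel₀ pw.ne' r) ?_
  have := mul_right_cancel₀ pw.ne' i
  linarith

/-- the case in which the second functions differ -/
theorem diffcase {p0 p1 q0 q1 w0 w1 s0 s1 u0 u1 u2 u3 v0 v1 v2 v3 t : ℝ}
    (hp : p0 * p0 + p1 * p1 = 1) (hq : q0 * q0 + q1 * q1 = 1)
    (hw : w0 * w0 + w1 * w1 = 1) (hs : s0 * s0 + s1 * s1 = 1)
    (hu : p0 * u0 + p1 * u1 = 0) (hu' : w0 * u2 + w1 * u3 = 0)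
    (hv : q0 * v0 + q1 * v1 = 0) (hv' : s0 * v2 + s1 * v3 = 0)
    (R1 : 2 * (p0 * u3 + u0 * w1) = -(t * (p0 * w1 - q0 * s1)))
    (I1 : 2 * (p1 * u3 + u1 * w1) = -(t * (p1 * w1 - q1 * s1)))
    (R2 : 2 * (2 * (p0 * u0 - p1 * u1) * (2 + w0) + (p0 * p0 - p1 * p1) * u2) =
      -(t * ((p0 * p0 - p1 * p1) * (2 + w0) - (q0 * q0 - q1 * q1) * (2 + s0))))
    (I2 : 2 * (2 * (p0 * u1 + p1 * u0) * (2 + w0) + (2 * (p0 * p1)) * u2) =
      -(t * (2 * (p0 * p1) * (2 + w0) - 2 * (q0 * q1) * (2 + s0))))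
    (R3 : 2 * (q0 * v3 + v0 * s1) = t * (p0 * w1 - q0 * s1))
    (I3 : 2 * (q1 * v3 + v1 * s1) = t * (p1 * w1 - q1 * s1))
    (R4 : 2 * (2 * (q0 * v0 - q1 * v1) * (2 + s0) + (q0 * q0 - q1 * q1) * v2) =
      t * ((p0 * p0 - p1 * p1) * (2 + w0) - (q0 * q0 - q1 * q1) * (2 + s0)))
    (I4 : 2 * (2 * (q0 * v1 + q1 * v0) * (2 + s0) + (2 * (q0 * q1)) * v2) =
      t * (2 * (p0 * p1) * (2 + w0) - 2 * (q0 * q1) * (2 + s0)))
    (hne : ¬((p0 * p0 - p1 * p1) * (2 + w0) = (q0 * q0 - q1 * q1) * (2 + s0) ∧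
      2 * (p0 * p1) * (2 + w0) = 2 * (q0 * q1) * (2 + s0))) : t = 0 := by
  by_contra ht
  obtain ⟨α1, f0, f1⟩ := perp hp hu
  obtain ⟨β1, f2, f3⟩ := perp hw hu'
  obtain ⟨α2, k0, k1⟩ := perp hq hv
  obtain ⟨β2, k2, k3⟩ := perp hs hv'
  rw [f0, f1, f2] at R2 I2
  rw [f0, f3] at R1
  rw [f1, f3] at I1
  rw [k0, k1, k2] at R4 I4
  rw [k0, k3] at R3
  rw [k1, k3] at I3
  have hCS : (p0 * q0 + p1 * q1) ^ 2 + (p0 * q1 - p1 * q0) ^ 2 = 1 := by
    linear_combination (q0 * q0 + q1 * q1) * hp + hq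
  obtain ⟨hS, hC, h0⟩ := noline (C := p0 * q0 + p1 * q1) (S := p0 * q1 - p1 * q0) (w0 := w0)
    (w1 := w1) (s0 := s0) (s1 := s1) (α1 := α1) (β1 := β1) (α2 := α2) (β2 := β2) (t := t)
    hCS hw hs
    (by linear_combination p0 * R1 + p1 * I1 - (2 * β1 * w0 + t * w1) * hp)
    (by linear_combination p0 * I1 - p1 * R1 - (2 * α1 * w1) * hp)
    (by linear_combination (p0 * p0 - p1 * p1) * R2 + 2 * (p0 * p1) * I2 -
      (-(2 * β1 * w1) + t * (2 + w0)) * (p0 * p0 + p1 * p1 + 1) * hp)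
    (by linear_combination (1 / 2) * ((p0 * p0 - p1 * p1) * I2 - 2 * (p0 * p1) * R2) -
      2 * α1 * (2 + w0) * (p0 * p0 + p1 * p1 + 1) * hp)
    (by linear_combination q0 * R3 + q1 * I3 - (2 * β2 * s0 + t * s1) * hq)
    (by linear_combination q0 * I3 - q1 * R3 - (2 * α2 * s1) * hq)
    (by linear_combination (q0 * q0 - q1 * q1) * R4 + 2 * (q0 * q1) * I4 -
      (-(2 * β2 * s1) + t * (2 + s0)) * (q0 * q0 + q1 * q1 + 1) * hq)
    (by linear_combination (1 / 2) * ((q0 * q0 - q1 * q1) * I4 - 2 * (q0 * q1) * R4) -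
      2 * α2 * (2 + s0) * (q0 * q0 + q1 * q1 + 1) * hq) ht
  apply hne
  have m0 : q0 * q0 = p0 * p0 := by
    linear_combination (-(q0 * q0)) * hp + (p0 * p0) * hq - (p0 * q1 + p1 * q0) * hS
  have m1 : q1 * q1 = p1 * p1 := by linarith
  have m2 : q0 * q1 = p0 * p1 := by
    linear_combination (-(q0 * q1)) * hp + (p0 * p1) * hq + (p0 * q0 - p1 * q1) * hS
  rw [h0, m0, m1, m2]
  exact ⟨rfl, rfl⟩

/-- real and imaginary parts -/
theorem psi1_re (x : E2 × E2) : (psi1 x).re = x.1 0 * x.2 1 := by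
  simp [psi1, Zc_apply, Bc_apply]
theorem psi1_im (x : E2 × E2) : (psi1 x).im = x.1 1 * x.2 1 := by
  simp [psi1, Zc_apply, Bc_apply]
theorem psi2_re (x : E2 × E2) :
    (psi2 x).re = (x.1 0 * x.1 0 - x.1 1 * x.1 1) * (2 + x.2 0) := by
  simp [psi2, Zc_apply, Ac_apply]
theorem psi2_im (x : E2 × E2) : (psi2 x).im = 2 * (x.1 0 * x.1 1) * (2 + x.2 0) := by
  simp [psi2, Zc_apply, Ac_apply, -mul_eq_mul_right_iff]; ring
theorem D1_re (x u : E2 × E2) : (D1 x u).re = x.1 0 * u.2 1 + u.1 0 * x.2 1 := by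
  simp [D1, Zc_apply, Bc_apply]
theorem D1_im (x u : E2 × E2) : (D1 x u).im = x.1 1 * u.2 1 + u.1 1 * x.2 1 := by
  simp [D1, Zc_apply, Bc_apply]
theorem D2_re (x u : E2 × E2) : (D2 x u).re =
    2 * (x.1 0 * u.1 0 - x.1 1 * u.1 1) * (2 + x.2 0) +
      (x.1 0 * x.1 0 - x.1 1 * x.1 1) * u.2 0 := by
  simp [D2, Zc_apply, Ac_apply, -mul_eq_mul_right_iff]; ring
theorem D2_im (x u : E2 × E2) : (D2 x u).im =
    2 * (x.1 0 * u.1 1 + x.1 1 * u.1 0) * (2 + x.2 0) + (2 * (x.1 0 * x.1 1)) * u.2 0 := by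
  simp [D2, Zc_apply, Ac_apply, -mul_eq_mul_right_iff]; ring

/-- the two points of the torus lie over the same point of the Klein bottle: they are equal or
interchanged by `(z, w) ↦ (-z, conj w)` -/
def KleinRel (x y : T2) : Prop :=
  y = x ∨ ((y.1 : E2) = -(x.1 : E2) ∧ (y.2 : E2) 0 = (x.2 : E2) 0 ∧
    (y.2 : E2) 1 = -((x.2 : E2) 1))

theorem g8_eq (x y : E2 × E2) : g8 x = g8 y ↔ psi1 x = psi1 y ∧ psi2 x = psi2 y := by
  constructor
  · intro h
    have h1 := L.injective h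
    exact ⟨congrArg Prod.fst h1, congrArg (fun z : ℂ × ℂ × ℂ × ℂ => z.2.1) h1⟩
  · rintro ⟨h1, h2⟩
    simp only [g8, h1, h2]

theorem g8_fibre (x y : T2) : g8 (incl x) = g8 (incl y) ↔ KleinRel x y := by
  have ux1 := unit2 x.1
  have ux2 := unit2 x.2
  have uy1 := unit2 y.1
  have uy2 := unit2 y.2
  rw [g8_eq]
  constructor
  · rintro ⟨h1, h2⟩
    have r1 := congrArg Complex.re h1
    have i1 := congrArg Complex.im h1
    have r2 := congrArg Complex.re h2
    have i2 := congrArg Complex.im h2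
    rw [psi1_re, psi1_re] at r1
    rw [psi1_im, psi1_im] at i1
    rw [psi2_re, psi2_re] at r2
    rw [psi2_im, psi2_im] at i2
    obtain ⟨h0, hc | hc⟩ := fibre ux1 uy1 ux2 uy2 r2 i2
    · left
      have r1' : (x.1 : E2) 0 * (x.2 : E2) 1 = (y.1 : E2) 0 * (y.2 : E2) 1 := r1
      have i1' : (x.1 : E2) 1 * (x.2 : E2) 1 = (y.1 : E2) 1 * (y.2 : E2) 1 := i1
      rw [hc.1] at r1'
      rw [hc.2] at i1'
      have h3 : (y.2 : E2) 1 = (x.2 : E2) 1 := by
        linear_combination ((x.2 : E2) 1 - (y.2 : E2) 1) * ux1 - (x.1 : E2) 0 * r1' -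
          (x.1 : E2) 1 * i1'
      exact Prod.ext (Subtype.ext (ext2 hc.1 hc.2)) (Subtype.ext (ext2 h0.symm h3))
    · right
      have r1' : (x.1 : E2) 0 * (x.2 : E2) 1 = (y.1 : E2) 0 * (y.2 : E2) 1 := r1
      have i1' : (x.1 : E2) 1 * (x.2 : E2) 1 = (y.1 : E2) 1 * (y.2 : E2) 1 := i1
      rw [hc.1] at r1'
      rw [hc.2] at i1'
      refine ⟨ext2 ?_ ?_, h0.symm, ?_⟩
      · rw [hc.1]; rfl
      · rw [hc.2]; rfl
      · linear_combination (-((x.2 : E2) 1 + (y.2 : E2) 1)) * ux1 + (x.1 : E2) 0 * r1' +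
          (x.1 : E2) 1 * i1'
  · rintro (h | ⟨h1, h2, h3⟩)
    · rw [h]; exact ⟨rfl, rfl⟩
    · have e0 : (y.1 : E2) 0 = -((x.1 : E2) 0) := by rw [h1]; rfl
      have e1 : (y.1 : E2) 1 = -((x.1 : E2) 1) := by rw [h1]; rfl
      constructor
      · refine Complex.ext ?_ ?_
        · rw [psi1_re, psi1_re]
          show (x.1 : E2) 0 * (x.2 : E2) 1 = (y.1 : E2) 0 * (y.2 : E2) 1
          rw [e0, h3]; ring
        · rw [psi1_im, psi1_im]
          show (x.1 : E2) 1 * (x.2 : E2) 1 = (y.1 : E2) 1 * (y.2 : E2) 1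
          rw [e1, h3]; ring
      · refine Complex.ext ?_ ?_
        · rw [psi2_re, psi2_re]
          show ((x.1 : E2) 0 * (x.1 : E2) 0 - (x.1 : E2) 1 * (x.1 : E2) 1) * (2 + (x.2 : E2) 0) =
            ((y.1 : E2) 0 * (y.1 : E2) 0 - (y.1 : E2) 1 * (y.1 : E2) 1) * (2 + (y.2 : E2) 0)
          rw [e0, e1, h2]; ring
        · rw [psi2_im, psi2_im]
          show 2 * ((x.1 : E2) 0 * (x.1 : E2) 1) * (2 + (x.2 : E2) 0) =
            2 * ((y.1 : E2) 0 * (y.1 : E2) 1) * (2 + (y.2 : E2) 0)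
          rw [e0, e1, h2]; ring

theorem klein8 : TotallySkewImmersion (fun z : T2 => g8 (incl z)) ∧
    ∀ x y : T2, g8 (incl x) = g8 (incl y) ↔ KleinRel x y := by
  refine ⟨criterion g8 g8_contDiff ?_ ?_, g8_fibre⟩
  · intro x w h1 h2 h
    rw [g8_deriv] at h
    have h3 := (map_eq_zero_iff L L.injective).1 h
    have d1 : D1 (incl x) w = 0 := congrArg Prod.fst h3
    have d2 : D2 (incl x) w = 0 := congrArg (fun z : ℂ × ℂ × ℂ × ℂ => z.2.1) h3
    rw [inner2] at h1 h2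
    have r1 := congrArg Complex.re d1
    have i1 := congrArg Complex.im d1
    have r2 := congrArg Complex.re d2
    have i2 := congrArg Complex.im d2
    rw [D1_re] at r1
    rw [D1_im] at i1
    rw [D2_re] at r2
    rw [D2_im] at i2
    obtain ⟨⟨k0, k1⟩, k2, k3⟩ := imm (unit2 x.1) (unit2 x.2) h1 h2 r2 i2 (Or.inr ⟨r1, i1⟩)
    exact Prod.ext (ext2 k0 k1) (ext2 k2 k3)
  · intro x y hxy u v hu1 hu2 hv1 hv2 t h
    rw [g8_deriv, g8_deriv, g8, g8, ← map_sub, ← map_sub, ← map_smul, ← map_add] at h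
    have h0 := (map_eq_zero_iff L L.injective).1 h
    have q1 : D1 (incl x) u - D1 (incl y) v + (t : ℂ) * (psi1 (incl x) - psi1 (incl y)) = 0 := by
      have := congrArg Prod.fst h0
      simpa using this
    have q2 : D2 (incl x) u - D2 (incl y) v + (t : ℂ) * (psi2 (incl x) - psi2 (incl y)) = 0 := by
      have := congrArg (fun z : ℂ × ℂ × ℂ × ℂ => z.2.1) h0
      simpa using this
    have q3 : psi1 (incl x) * D2 (incl x) u + D1 (incl x) u * psi2 (incl x) -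
        (psi1 (incl y) * D2 (incl y) v + D1 (incl y) v * psi2 (incl y)) +
        (t : ℂ) * (psi1 (incl x) * psi2 (incl x) - psi1 (incl y) * psi2 (incl y)) = 0 := by
      have := congrArg (fun z : ℂ × ℂ × ℂ × ℂ => z.2.2.1) h0
      simpa using this
    have q4 : 2 * psi2 (incl x) * D2 (incl x) u - 2 * psi2 (incl y) * D2 (incl y) v +
        (t : ℂ) * (psi2 (incl x) * psi2 (incl x) - psi2 (incl y) * psi2 (incl y)) = 0 := by
      have := congrArg (fun z : ℂ × ℂ × ℂ × ℂ => z.2.2.2) h0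
      simpa using this
    clear h h0
    have ux1 := unit2 x.1
    have ux2 := unit2 x.2
    have uy1 := unit2 y.1
    have uy2 := unit2 y.2
    rw [inner2] at hu1 hu2 hv1 hv2
    by_cases hP : psi2 (incl x) = psi2 (incl y)
    · -- the second functions agree
      have hA : psi1 (incl x) ≠ psi1 (incl y) := fun h1 => hxy ((g8_eq _ _).2 ⟨h1, hP⟩)
      have e1 : D2 (incl x) u = D2 (incl y) v := by
        rw [hP] at q2
        linear_combination q2
      have q1' := q1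
      have e2 : (psi1 (incl x) - psi1 (incl y)) * D2 (incl x) u = 0 := by
        rw [hP, ← e1] at q3
        linear_combination q3 - psi2 (incl y) * q1'
      have e3 : D2 (incl x) u = 0 := (mul_eq_zero.1 e2).resolve_left (sub_ne_zero.2 hA)
      have e4 : D2 (incl y) v = 0 := by rw [← e1, e3]
      have r2 := congrArg Complex.re e3
      have i2 := congrArg Complex.im e3
      have r4 := congrArg Complex.re e4
      have i4 := congrArg Complex.im e4
      rw [D2_re] at r2 r4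
      rw [D2_im] at i2 i4
      have P2 := congrArg Complex.re hP
      have Q2 := congrArg Complex.im hP
      rw [psi2_re, psi2_re] at P2
      rw [psi2_im, psi2_im] at Q2
      obtain ⟨hw, hc⟩ := fibre ux1 uy1 ux2 uy2 P2 Q2
      have hs1 : (x.2 : E2) 1 * (x.2 : E2) 1 = (y.2 : E2) 1 * (y.2 : E2) 1 := by
        rw [← hw] at uy2
        linarith
      have hx1 : (x.2 : E2) 1 ≠ 0 := by
        intro h1
        rw [h1, mul_zero] at hs1
        have h2 : (y.2 : E2) 1 = 0 := mul_self_eq_zero.1 hs1.symm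
        apply hA
        refine Complex.ext ?_ ?_
        · rw [psi1_re, psi1_re]
          show (x.1 : E2) 0 * (x.2 : E2) 1 = (y.1 : E2) 0 * (y.2 : E2) 1
          rw [h1, h2]; ring
        · rw [psi1_im, psi1_im]
          show (x.1 : E2) 1 * (x.2 : E2) 1 = (y.1 : E2) 1 * (y.2 : E2) 1
          rw [h1, h2]; ring
      have hy1 : (y.2 : E2) 1 ≠ 0 := by
        intro h1
        rw [h1, mul_zero] at hs1
        exact hx1 (mul_self_eq_zero.1 hs1)
      obtain ⟨⟨k0, k1⟩, k2, k3⟩ := imm ux1 ux2 hu1 hu2 r2 i2 (Or.inl hx1)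
      obtain ⟨⟨l0, l1⟩, l2, l3⟩ := imm uy1 uy2 hv1 hv2 r4 i4 (Or.inl hy1)
      have hu : u = 0 := Prod.ext (ext2 k0 k1) (ext2 k2 k3)
      have hv : v = 0 := Prod.ext (ext2 l0 l1) (ext2 l2 l3)
      refine ⟨hu, ?_⟩
      have z1 : ∀ z : E2 × E2, D1 z 0 = 0 := fun z => by simp [D1]
      rw [hu, hv, z1, z1, sub_zero, zero_add] at q1
      have := (mul_eq_zero.1 q1).resolve_right (sub_ne_zero.2 hA)
      exact_mod_cast this
    · obtain ⟨F1, F2, F3, F4⟩ := elim q1 q2 q3 q4 hP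
      have R1 := congrArg Complex.re F1
      have I1 := congrArg Complex.im F1
      have R2 := congrArg Complex.re F2
      have I2 := congrArg Complex.im F2
      have R3 := congrArg Complex.re F3
      have I3 := congrArg Complex.im F3
      have R4 := congrArg Complex.re F4
      have I4 := congrArg Complex.im F4
      have c2 : (2 : ℂ) = ((2 : ℝ) : ℂ) := by norm_num
      rw [c2] at R1 I1 R2 I2 R3 I3 R4 I4
      rw [Complex.neg_re, Complex.re_ofReal_mul, Complex.re_ofReal_mul, Complex.sub_re, D1_re,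
        psi1_re, psi1_re] at R1
      rw [Complex.neg_im, Complex.im_ofReal_mul, Complex.im_ofReal_mul, Complex.sub_im, D1_im,
        psi1_im, psi1_im] at I1
      rw [Complex.neg_re, Complex.re_ofReal_mul, Complex.re_ofReal_mul, Complex.sub_re, D2_re,
        psi2_re, psi2_re] at R2
      rw [Complex.neg_im, Complex.im_ofReal_mul, Complex.im_ofReal_mul, Complex.sub_im, D2_im,
        psi2_im, psi2_im] at I2
      rw [Complex.re_ofReal_mul, Complex.re_ofReal_mul, Complex.sub_re, D1_re,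
        psi1_re, psi1_re] at R3
      rw [Complex.im_ofReal_mul, Complex.im_ofReal_mul, Complex.sub_im, D1_im,
        psi1_im, psi1_im] at I3
      rw [Complex.re_ofReal_mul, Complex.re_ofReal_mul, Complex.sub_re, D2_re,
        psi2_re, psi2_re] at R4
      rw [Complex.im_ofReal_mul, Complex.im_ofReal_mul, Complex.sub_im, D2_im,
        psi2_im, psi2_im] at I4
      have ht : t = 0 := diffcase ux1 uy1 ux2 uy2 hu1 hu2 hv1 hv2 R1 I1 R2 I2 R3 I3 R4 I4 (by
        rintro ⟨h1, h2⟩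
        apply hP
        refine Complex.ext ?_ ?_
        · rw [psi2_re, psi2_re]; exact h1
        · rw [psi2_im, psi2_im]; exact h2)
      refine ⟨?_, ht⟩
      rw [ht] at F1 F2
      have d1 : D1 (incl x) u = 0 := by
        have : (2 : ℂ) * D1 (incl x) u = 0 := by rw [F1]; simp
        exact (mul_eq_zero.1 this).resolve_left two_ne_zero
      have d2 : D2 (incl x) u = 0 := by
        have : (2 : ℂ) * D2 (incl x) u = 0 := by rw [F2]; simp
        exact (mul_eq_zero.1 this).resolve_left two_ne_zero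
      have r1 := congrArg Complex.re d1
      have i1 := congrArg Complex.im d1
      have r2 := congrArg Complex.re d2
      have i2 := congrArg Complex.im d2
      rw [D1_re] at r1
      rw [D1_im] at i1
      rw [D2_re] at r2
      rw [D2_im] at i2
      obtain ⟨⟨k0, k1⟩, k2, k3⟩ := imm ux1 ux2 hu1 hu2 r2 i2 (Or.inr ⟨r1, i1⟩)
      exact Prod.ext (ext2 k0 k1) (ext2 k2 k3)

end Pool.Agent.H69.SkewKlein
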