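import Pool.Agent.H69.SkewSphere

/-! A totally skew embedding of the projective plane in eight-space, as an even map of the sphere. -/

set_option autoImplicit false

open scoped Manifold ContDiff
open Metric

namespace Pool.Agent.H69.Skew

open Polynomial

/-- the quadratic polynomial with the given coefficients -/
noncomputable def pol (x : EuclideanSpace ℝ (Fin 3)) : ℝ[X] := C (x 0) + C (x 1) * X + C (x 2) * X ^ 2

theorem pol_deg (x : EuclideanSpace ℝ (Fin 3)) : (pol x).natDegree ≤ 2 := by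
  unfold pol
  compute_degree

theorem pol_coeff (x : EuclideanSpace ℝ (Fin 3)) :
    (pol x).coeff 0 = x 0 ∧ (pol x).coeff 1 = x 1 ∧ (pol x).coeff 2 = x 2 := by
  unfold pol
  refine ⟨?_, ?_, ?_⟩
  · simp [coeff_X]
  · simp [coeff_C, coeff_X_pow]
  · simp [coeff_X_pow]

theorem pol_eq_zero {x : EuclideanSpace ℝ (Fin 3)} (h : pol x = 0) : x = 0 := by
  obtain ⟨h0, h1, h2⟩ := pol_coeff x
  rw [h, coeff_zero] at h0 h1 h2
  exact ext3 h0.symm h1.symm h2.symm

theorem pol_C_mul {x y : EuclideanSpace ℝ (Fin 3)} {a b : ℝ} (h : C a * pol x = C b * pol y) :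
    a • x = b • y := by
  obtain ⟨h0, h1, h2⟩ := pol_coeff x
  obtain ⟨k0, k1, k2⟩ := pol_coeff y
  refine ext3 ?_ ?_ ?_
  · have := congrArg (fun p => p.coeff 0) h
    simp only [coeff_C_mul, h0, k0] at this
    exact this
  · have := congrArg (fun p => p.coeff 1) h
    simp only [coeff_C_mul, h1, k1] at this
    exact this
  · have := congrArg (fun p => p.coeff 2) h
    simp only [coeff_C_mul, h2, k2] at this
    exact this

/-- Cubes of quadratics: a relation forces proportionality. -/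
theorem cubes {p q A B : ℝ[X]} (hp : p ≠ 0) (hq : q ≠ 0) (hA : A.natDegree ≤ 2)
    (hB : B.natDegree ≤ 2) (h : p ^ 3 * A = q ^ 3 * B) (hA0 : A ≠ 0) :
    ∃ a b : ℝ, a ≠ 0 ∧ b ≠ 0 ∧ C a * p = C b * q := by
  have hB0 : B ≠ 0 := by
    rintro rfl
    rw [mul_zero] at h
    exact (mul_ne_zero (pow_ne_zero 3 hp) hA0) h
  set g := EuclideanDomain.gcd p q with hg
  have hg0 : g ≠ 0 := fun h0 => hp ((EuclideanDomain.gcd_eq_zero_iff.1 h0).1)
  obtain ⟨p', hp'⟩ := EuclideanDomain.gcd_dvd_left p q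
  obtain ⟨q', hq'⟩ := EuclideanDomain.gcd_dvd_right p q
  rw [← hg] at hp' hq'
  have hcop : IsCoprime p' q' := by
    have h1 := EuclideanDomain.gcd_eq_gcd_ab p q
    rw [← hg] at h1
    refine ⟨EuclideanDomain.gcdA p q, EuclideanDomain.gcdB p q, ?_⟩
    have h3 : g * (EuclideanDomain.gcdA p q * p' + EuclideanDomain.gcdB p q * q') = g * 1 := by
      have e1 : g * p' * EuclideanDomain.gcdA p q + g * q' * EuclideanDomain.gcdB p q = g := by
        rw [← hp', ← hq']
        exact h1.symm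
      linear_combination e1
    exact mul_left_cancel₀ hg0 h3
  have h2 : p' ^ 3 * A = q' ^ 3 * B := by
    have : g ^ 3 * (p' ^ 3 * A) = g ^ 3 * (q' ^ 3 * B) := by
      rw [hp', hq'] at h
      linear_combination h
    exact mul_left_cancel₀ (pow_ne_zero 3 hg0) this
  have hc3 : IsCoprime (p' ^ 3) (q' ^ 3) := hcop.pow
  have d1 : p' ^ 3 ∣ B := hc3.dvd_of_dvd_mul_left ⟨A, h2.symm⟩
  have d2 : q' ^ 3 ∣ A := hc3.symm.dvd_of_dvd_mul_left ⟨B, h2⟩
  have n1 := natDegree_le_of_dvd d1 hB0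
  have n2 := natDegree_le_of_dvd d2 hA0
  rw [natDegree_pow] at n1 n2
  have m1 : p'.natDegree = 0 := by omega
  have m2 : q'.natDegree = 0 := by omega
  obtain ⟨a, ha⟩ := natDegree_eq_zero.1 m2
  obtain ⟨b, hb⟩ := natDegree_eq_zero.1 m1
  refine ⟨a, b, ?_, ?_, ?_⟩
  · rintro rfl
    rw [C_0] at ha
    rw [← ha, mul_zero] at hq'
    exact hq hq'
  · rintro rfl
    rw [C_0] at hb
    rw [← hb, mul_zero] at hp'
    exact hp hp'
  · rw [hp', hq', ha, hb]
    ring

/-- evaluation of the quadratic polynomial at `j` -/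
noncomputable def lc (j : Fin 9) : EuclideanSpace ℝ (Fin 3) →L[ℝ] ℝ :=
  pj 0 + ((j : ℕ) : ℝ) • pj 1 + (((j : ℕ) : ℝ) ^ 2) • pj 2

theorem lc_apply (j : Fin 9) (x : EuclideanSpace ℝ (Fin 3)) :
    lc j x = (pol x).eval ((j : ℕ) : ℝ) := by
  simp [lc, pol]
  ring

/-- the denominator -/
noncomputable def Ph (x : EuclideanSpace ℝ (Fin 3)) : ℝ := ∑ j, lc j x ^ 4

theorem nine_points {P : ℝ[X]} (hP : P.natDegree ≤ 8) (h : ∀ j : Fin 9, P.eval ((j : ℕ) : ℝ) = 0) :
    P = 0 := by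
  refine eq_zero_of_natDegree_lt_card_of_eval_eq_zero P (f := fun j : Fin 9 => ((j : ℕ) : ℝ)) ?_ h
    (by simpa using Nat.lt_succ_of_le hP)
  intro a b hab
  have h1 : (((a : ℕ) : ℝ)) = ((b : ℕ) : ℝ) := hab
  exact Fin.ext (by exact_mod_cast h1)

theorem Ph_pos {x : EuclideanSpace ℝ (Fin 3)} (hx : x ≠ 0) : 0 < Ph x := by
  refine lt_of_le_of_ne (Finset.sum_nonneg fun j _ => by positivity) fun h0 => ?_
  have h1 : ∀ j : Fin 9, lc j x = 0 := by
    intro j
    have := (Finset.sum_eq_zero_iff_of_nonneg (s := Finset.univ)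
      (f := fun j : Fin 9 => lc j x ^ 4) (fun j _ => by positivity)).1 h0.symm j
      (Finset.mem_univ j)
    exact pow_eq_zero_iff (by norm_num) |>.1 this
  refine hx (pol_eq_zero (nine_points ((pol_deg x).trans (by norm_num)) fun j => ?_))
  rw [← lc_apply]
  exact h1 j

/-- one quotient -/
noncomputable def q9 (j : Fin 9) (x : EuclideanSpace ℝ (Fin 3)) : ℝ := lc j x ^ 4 / Ph x

/-- the map -/
noncomputable def g8 (x : EuclideanSpace ℝ (Fin 3)) : EuclideanSpace ℝ (Fin 8) :=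
  WithLp.toLp 2 (fun i : Fin 8 => q9 i.castSucc x)

theorem Ph_contDiff : ContDiff ℝ ∞ Ph :=
  ContDiff.sum fun j _ => (lc j).contDiff.pow 4

theorem q9_contDiffAt (j : Fin 9) {x : EuclideanSpace ℝ (Fin 3)} (hx : x ≠ 0) :
    ContDiffAt ℝ ∞ (q9 j) x :=
  ((lc j).contDiff.pow 4).contDiffAt.div Ph_contDiff.contDiffAt (Ph_pos hx).ne'

theorem g8_contDiffAt {x : EuclideanSpace ℝ (Fin 3)} (hx : x ≠ 0) : ContDiffAt ℝ ∞ g8 x := by
  rw [contDiffAt_euclidean]
  intro i
  exact q9_contDiffAt i.castSucc hx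

theorem sum_q9 {x : EuclideanSpace ℝ (Fin 3)} (hx : x ≠ 0) : ∑ j, q9 j x = 1 := by
  unfold q9
  rw [← Finset.sum_div]
  exact div_self (Ph_pos hx).ne'

/-- the derivative of the denominator -/
noncomputable def dPh (x w : EuclideanSpace ℝ (Fin 3)) : ℝ := ∑ j, 4 * lc j x ^ 3 * lc j w

theorem pow4_has (j : Fin 9) (x : EuclideanSpace ℝ (Fin 3)) :
    HasFDerivAt (fun z => lc j z ^ 4) ((4 * lc j x ^ 3) • lc j) x := by
  have h := (lc j).hasFDerivAt (x := x) |>.pow 4
  simpa using h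

theorem Ph_has (x : EuclideanSpace ℝ (Fin 3)) :
    HasFDerivAt Ph (∑ j, (4 * lc j x ^ 3) • lc j) x :=
  HasFDerivAt.fun_sum fun j _ => pow4_has j x

theorem Ph_fderiv (x w : EuclideanSpace ℝ (Fin 3)) :
    (∑ j, (4 * lc j x ^ 3) • lc j : EuclideanSpace ℝ (Fin 3) →L[ℝ] ℝ) w = dPh x w := by
  simp [dPh]

theorem q9_fderiv (j : Fin 9) {x : EuclideanSpace ℝ (Fin 3)} (hx : x ≠ 0)
    (w : EuclideanSpace ℝ (Fin 3)) :
    q9 j x * dPh x w + Ph x * fderiv ℝ (q9 j) x w = 4 * lc j x ^ 3 * lc j w := by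
  have h1 : HasFDerivAt (q9 j) (fderiv ℝ (q9 j) x) x :=
    ((q9_contDiffAt j hx).differentiableAt (by simp)).hasFDerivAt
  have h2 := h1.mul (Ph_has x)
  have h3 : (fun z => q9 j z * Ph z) =ᶠ[nhds x] fun z => lc j z ^ 4 := by
    filter_upwards [isOpen_ne.mem_nhds hx] with z hz
    unfold q9
    exact div_mul_cancel₀ _ (Ph_pos hz).ne'
  have h4 := (h2.congr_of_eventuallyEq h3.symm).unique (pow4_has j x)
  have h5 := congrArg (fun L : EuclideanSpace ℝ (Fin 3) →L[ℝ] ℝ => L w) h4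
  simp only [add_apply, smul_apply, smul_eq_mul, Ph_fderiv] at h5
  exact h5

/-- the auxiliary vector -/
noncomputable def av (x w : EuclideanSpace ℝ (Fin 3)) (t : ℝ) : EuclideanSpace ℝ (Fin 3) :=
  (4 / Ph x) • w + ((t - dPh x w / Ph x) / Ph x) • x

theorem av_eq (j : Fin 9) {x : EuclideanSpace ℝ (Fin 3)} (hx : x ≠ 0)
    (w : EuclideanSpace ℝ (Fin 3)) (t : ℝ) :
    lc j x ^ 3 * lc j (av x w t) = fderiv ℝ (q9 j) x w + t * q9 j x := by
  have h := q9_fderiv j hx w
  have hP := (Ph_pos hx).ne'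
  have hq : q9 j x * Ph x = lc j x ^ 4 := div_mul_cancel₀ _ hP
  have h1 : fderiv ℝ (q9 j) x w = (4 * lc j x ^ 3 * lc j w - q9 j x * dPh x w) / Ph x := by
    rw [eq_div_iff hP]
    linarith
  rw [h1, av, map_add, map_smul, map_smul, smul_eq_mul, smul_eq_mul]
  have h2 : q9 j x = lc j x ^ 4 / Ph x := rfl
  rw [h2]
  field_simp
  ring

theorem av_sum {x : EuclideanSpace ℝ (Fin 3)} (hx : x ≠ 0)
    (w : EuclideanSpace ℝ (Fin 3)) (t : ℝ) :
    ∑ j, lc j x ^ 3 * lc j (av x w t) = t := by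
  have hP := (Ph_pos hx).ne'
  have h1 : ∀ j : Fin 9, lc j x ^ 3 * lc j (av x w t) =
      (4 * lc j x ^ 3 * lc j w) * (1 / Ph x) + lc j x ^ 4 * ((t - dPh x w / Ph x) / Ph x) := by
    intro j
    rw [av, map_add, map_smul, map_smul, smul_eq_mul, smul_eq_mul]
    ring
  rw [Finset.sum_congr rfl fun j _ => h1 j, Finset.sum_add_distrib, ← Finset.sum_mul,
    ← Finset.sum_mul]
  have h2 : ∑ j, 4 * lc j x ^ 3 * lc j w = dPh x w := rfl
  have h3 : ∑ j, lc j x ^ 4 = Ph x := rfl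
  rw [h2, h3]
  field_simp
  ring

/-- Nine equations from eight. -/
theorem nine_of_eight {a b : Fin 9 → ℝ} (h : ∀ i : Fin 8, a i.castSucc = b i.castSucc)
    (hs : ∑ j, a j = ∑ j, b j) : ∀ j, a j = b j := by
  rw [Fin.sum_univ_castSucc a, Fin.sum_univ_castSucc b, Finset.sum_congr rfl fun i _ => h i] at hs
  have h8 : a (Fin.last 8) = b (Fin.last 8) := by linarith
  intro j
  refine Fin.lastCases h8 (fun i => h i) j

theorem pol_rel {x y A B : EuclideanSpace ℝ (Fin 3)}
    (h : ∀ j, lc j x ^ 3 * lc j A = lc j y ^ 3 * lc j B) :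
    pol x ^ 3 * pol A = pol y ^ 3 * pol B := by
  rw [← sub_eq_zero]
  refine nine_points ?_ fun j => ?_
  · refine (natDegree_sub_le _ _).trans (max_le ?_ ?_)
    · refine natDegree_mul_le.trans ?_
      have := natDegree_pow_le (p := pol x) (n := 3)
      have := pol_deg x
      have := pol_deg A
      omega
    · refine natDegree_mul_le.trans ?_
      have := natDegree_pow_le (p := pol y) (n := 3)
      have := pol_deg y
      have := pol_deg B
      omega
  · have := h j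
    rw [lc_apply, lc_apply, lc_apply, lc_apply] at this
    rw [eval_sub, eval_mul, eval_mul, eval_pow, eval_pow, this, sub_self]

theorem unit_ne (x : S2) : (x : EuclideanSpace ℝ (Fin 3)) ≠ 0 := by
  intro h
  have := unit3 x
  rw [h] at this
  simp at this

/-- proportional unit vectors -/
theorem prop_unit {x y : S2} {a b : ℝ} (ha : a ≠ 0)
    (h : a • (x : EuclideanSpace ℝ (Fin 3)) = b • (y : EuclideanSpace ℝ (Fin 3))) :
    (y : EuclideanSpace ℝ (Fin 3)) = x ∨ (y : EuclideanSpace ℝ (Fin 3)) = -x := by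
  have hx : ‖(x : EuclideanSpace ℝ (Fin 3))‖ = 1 := by simp
  have hy : ‖(y : EuclideanSpace ℝ (Fin 3))‖ = 1 := by simp
  have h1 := congrArg norm h
  rw [norm_smul, norm_smul, hx, hy, mul_one, mul_one, Real.norm_eq_abs, Real.norm_eq_abs,
    abs_eq_abs] at h1
  rcases h1 with rfl | rfl
  · left
    exact (smul_right_injective _ ha h).symm
  · right
    have hb : b ≠ 0 := by
      rintro rfl
      simp at ha
    rw [neg_smul, ← smul_neg] at h
    exact (smul_right_injective _ hb h).symm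

theorem rel_zero {x y : S2} {A B : EuclideanSpace ℝ (Fin 3)}
    (hne : ¬ ((y : EuclideanSpace ℝ (Fin 3)) = x ∨ (y : EuclideanSpace ℝ (Fin 3)) = -x))
    (h : ∀ j, lc j (x : EuclideanSpace ℝ (Fin 3)) ^ 3 * lc j A =
      lc j (y : EuclideanSpace ℝ (Fin 3)) ^ 3 * lc j B) : A = 0 := by
  by_contra hA
  obtain ⟨a, b, ha, hb, hab⟩ := cubes (fun h0 => unit_ne x (pol_eq_zero h0))
    (fun h0 => unit_ne y (pol_eq_zero h0)) (pol_deg A) (pol_deg B) (pol_rel h)
    (fun h0 => hA (pol_eq_zero h0))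
  exact hne (prop_unit ha (pol_C_mul hab))

theorem perp_prop {x : S2} {w : EuclideanSpace ℝ (Fin 3)}
    (hw : inner ℝ (x : EuclideanSpace ℝ (Fin 3)) w = (0 : ℝ)) {a b : ℝ} (ha : a ≠ 0)
    (h : a • w + b • (x : EuclideanSpace ℝ (Fin 3)) = 0) : w = 0 := by
  have h1 := congrArg (fun z => inner ℝ (x : EuclideanSpace ℝ (Fin 3)) z) h
  simp only [inner_add_right, inner_smul_right, hw, real_inner_self_eq_norm_sq, inner_zero_right]
    at h1
  have hx : ‖(x : EuclideanSpace ℝ (Fin 3))‖ = 1 := by simp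
  rw [hx] at h1
  have hb : b = 0 := by simpa using h1
  rw [hb, zero_smul, add_zero] at h
  exact (smul_eq_zero.1 h).resolve_left ha

theorem g8_coord (i : Fin 8) {x : EuclideanSpace ℝ (Fin 3)} (hx : x ≠ 0)
    (w : EuclideanSpace ℝ (Fin 3)) : fderiv ℝ g8 x w i = fderiv ℝ (q9 i.castSucc) x w :=
  fderiv_coord g8 x w ((g8_contDiffAt hx).differentiableAt (by simp)) i _
    ((q9_contDiffAt i.castSucc hx).differentiableAt (by simp)).hasFDerivAt

theorem lc_neg (j : Fin 9) (x : EuclideanSpace ℝ (Fin 3)) : lc j (-x) = -lc j x := map_neg _ _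

theorem q9_neg (j : Fin 9) (x : EuclideanSpace ℝ (Fin 3)) : q9 j (-x) = q9 j x := by
  have h : ∀ k : Fin 9, lc k (-x) ^ 4 = lc k x ^ 4 := fun k => by rw [lc_neg]; ring
  unfold q9 Ph
  rw [h, Finset.sum_congr rfl fun k _ => h k]

theorem g8_neg (x : EuclideanSpace ℝ (Fin 3)) : g8 (-x) = g8 x := by
  ext i
  exact q9_neg i.castSucc x

theorem g8_eq_iff (x y : S2) : g8 x = g8 y ↔
    (y : EuclideanSpace ℝ (Fin 3)) = x ∨ (y : EuclideanSpace ℝ (Fin 3)) = -x := by
  constructor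
  · intro h
    by_contra hne
    have hx := unit_ne x
    have hy := unit_ne y
    have h9 : ∀ j, q9 j (x : EuclideanSpace ℝ (Fin 3)) = q9 j (y : EuclideanSpace ℝ (Fin 3)) := by
      refine nine_of_eight (fun i => ?_) (by rw [sum_q9 hx, sum_q9 hy])
      exact congrArg (fun z : EuclideanSpace ℝ (Fin 8) => z i) h
    have h1 : ((Ph (y : EuclideanSpace ℝ (Fin 3))) • (x : EuclideanSpace ℝ (Fin 3))) = 0 := by
      refine rel_zero hne (B := (Ph (x : EuclideanSpace ℝ (Fin 3))) • (y : EuclideanSpace ℝ (Fin 3)))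
        fun j => ?_
      have h2 := h9 j
      unfold q9 at h2
      rw [div_eq_div_iff (Ph_pos hx).ne' (Ph_pos hy).ne'] at h2
      rw [map_smul, map_smul, smul_eq_mul, smul_eq_mul]
      linear_combination h2
    rcases smul_eq_zero.1 h1 with h2 | h2
    · exact (Ph_pos hy).ne' h2
    · exact hx h2
  · rintro (h | h)
    · rw [h]
    · rw [h, g8_neg]

theorem proj8 : TotallySkewImmersion (fun z : S2 => g8 z) := by
  refine criterion g8 (fun x => g8_contDiffAt (unit_ne x)) ?_ ?_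
  · intro x w hw h
    have hx := unit_ne x
    have h9 : ∀ j, lc j (x : EuclideanSpace ℝ (Fin 3)) ^ 3 * lc j (av x w 0) = 0 := by
      refine nine_of_eight (b := fun _ => 0) (fun i => ?_) (by rw [av_sum hx]; simp)
      rw [av_eq _ hx, ← g8_coord i hx, h]
      simp
    have hA : av (x : EuclideanSpace ℝ (Fin 3)) w 0 = 0 := by
      have h1 := pol_rel (x := x) (y := 0) (A := av x w 0) (B := 0) fun j => by
        rw [h9 j]; simp
      have h2 : pol 0 = 0 := by simp [pol]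
      rw [h2, mul_zero] at h1
      exact pol_eq_zero ((mul_eq_zero.1 h1).resolve_left
        (pow_ne_zero 3 fun h0 => hx (pol_eq_zero h0)))
    exact perp_prop hw (div_ne_zero (by norm_num) (Ph_pos hx).ne') hA
  · intro x y hxy u v hu hv t h
    have hx := unit_ne x
    have hy := unit_ne y
    have hne : ¬ ((y : EuclideanSpace ℝ (Fin 3)) = x ∨ (y : EuclideanSpace ℝ (Fin 3)) = -x) :=
      fun h0 => hxy ((g8_eq_iff x y).2 h0)
    have h9 : ∀ j, lc j (x : EuclideanSpace ℝ (Fin 3)) ^ 3 * lc j (av x u t) =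
        lc j (y : EuclideanSpace ℝ (Fin 3)) ^ 3 * lc j (av y v t) := by
      refine nine_of_eight (fun i => ?_) (by rw [av_sum hx, av_sum hy])
      rw [av_eq _ hx, av_eq _ hy, ← g8_coord i hx, ← g8_coord i hy]
      have h1 := congrArg (fun z : EuclideanSpace ℝ (Fin 8) => z i) h
      simp only [PiLp.add_apply, PiLp.sub_apply, PiLp.smul_apply, smul_eq_mul, PiLp.zero_apply]
        at h1
      have h2 : ∀ z, g8 z i = q9 i.castSucc z := fun _ => rfl
      rw [h2, h2] at h1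
      linarith
    have hA := rel_zero hne h9
    have ht : t = 0 := by
      rw [← av_sum hx u t, hA]
      simp
    refine ⟨?_, ht⟩
    exact perp_prop hu (div_ne_zero (by norm_num) (Ph_pos hx).ne') hA

end Pool.Agent.H69.Skew
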