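import Pool.Agent.H69.SkewKlein
import Mathlib.Geometry.Manifold.LocalDiffeomorph

/-! Totally skew embeddings of manifolds, and of those which are covered by the two-torus. -/

set_option autoImplicit false

open scoped Manifold ContDiff
open Metric

namespace Pool.Agent.H69.SkewQuot

open Pool.Agent.H69.Skew (Skew)
open Pool.Agent.H69.SkewTorus

variable {E H : Type} [NormedAddCommGroup E] [NormedSpace ℝ E] [TopologicalSpace H]
  (I : ModelWithCorners ℝ E H) {M : Type} [TopologicalSpace M] [ChartedSpace H M] {N : ℕ}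

/-- the derivative of a map of a manifold to a Euclidean space at a point -/
noncomputable def deriv (F : M → EuclideanSpace ℝ (Fin N)) (m : M) :
    E →L[ℝ] EuclideanSpace ℝ (Fin N) :=
  mfderiv I (𝓡 N) F m

/-- the affine tangent space of the image of the manifold at the image of the point `m` -/
noncomputable def tangent (F : M → EuclideanSpace ℝ (Fin N)) (m : M) :
    AffineSubspace ℝ (EuclideanSpace ℝ (Fin N)) :=
  AffineSubspace.mk' (F m) (LinearMap.range (deriv I F m).toLinearMap)

/-- `F` is a smooth embedding of the manifold `M` (smooth, an immersion, a homeomorphism onto the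
image), and the affine tangent spaces at any two different points are skew. -/
def TotallySkewEmb (F : M → EuclideanSpace ℝ (Fin N)) : Prop :=
  ContMDiff I (𝓡 N) ∞ F ∧ (∀ m, Function.Injective (deriv I F m)) ∧ Topology.IsEmbedding F ∧
    ∀ m m', m ≠ m' → Skew (tangent I F m) (tangent I F m')

/-- A totally skew immersion of the torus whose fibres are those of a surjective local
diffeomorphism to a manifold gives a totally skew embedding of the manifold. -/
theorem descend (f : T2 → EuclideanSpace ℝ (Fin N)) (hf : TotallySkewImmersion f) (π : T2 → M)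
    (hπ : IsLocalDiffeomorph ((𝓡 1).prod (𝓡 1)) I ∞ π) (hs : Function.Surjective π)
    (hfib : ∀ x y, π x = π y ↔ f x = f y) :
    ∃ F : M → EuclideanSpace ℝ (Fin N), TotallySkewEmb I F := by
  obtain ⟨F, hF⟩ : ∃ F : M → EuclideanSpace ℝ (Fin N), ∀ x, F (π x) = f x :=
    ⟨fun m => f (Function.surjInv hs m), fun x =>
      (hfib _ _).1 (Function.surjInv_eq hs (π x))⟩
  have hsm : ContMDiff I (𝓡 N) ∞ F := by
    intro m
    obtain ⟨x, rfl⟩ := hs m
    have h1 : IsLocalDiffeomorphAt ((𝓡 1).prod (𝓡 1)) I ∞ π x := hπ x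
    have h2 := h1.localInverse_contMDiffAt
    have h3 := h1.localInverse_eventuallyEq_right
    have h4 : ContMDiffAt I (𝓡 N) ∞ (f ∘ h1.localInverse) (π x) :=
      ContMDiffAt.comp (π x) (hf.1 _) h2
    refine h4.congr_of_eventuallyEq ?_
    filter_upwards [h3] with m hm
    have h5 : π (h1.localInverse m) = m := hm
    show F m = f (h1.localInverse m)
    rw [← hF, h5]
  have hd : ∀ x : T2, ∀ u : EuclideanSpace ℝ (Fin 1) × EuclideanSpace ℝ (Fin 1),
      Dm f x u = deriv I F (π x) (mfderiv ((𝓡 1).prod (𝓡 1)) I π x u :) := by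
    intro x u
    have e : F ∘ π = f := funext hF
    have h1 := mfderiv_comp x
      (hsm.mdifferentiableAt (by simp) : MDifferentiableAt I (𝓡 N) F (π x))
      (hπ.contMDiff.mdifferentiableAt (by simp) :
        MDifferentiableAt ((𝓡 1).prod (𝓡 1)) I π x)
    rw [e] at h1
    exact congrArg (fun L => L u) h1
  have hsur : ∀ x : T2, Function.Surjective (mfderiv ((𝓡 1).prod (𝓡 1)) I π x) := by
    intro x
    rw [← (hπ x).mfderivToContinuousLinearEquiv_coe (by simp)]
    exact ((hπ x).mfderivToContinuousLinearEquiv (by simp)).surjective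
  have htan : ∀ x : T2, tangent I F (π x) = tangentAff f x := by
    intro x
    have : LinearMap.range (deriv I F (π x)).toLinearMap =
        LinearMap.range (Dm f x).toLinearMap := by
      ext v
      constructor
      · rintro ⟨w, hw⟩
        obtain ⟨u, hu⟩ := hsur x w
        refine ⟨u, ?_⟩
        rw [← hw, ← hu]
        exact hd x u
      · rintro ⟨u, hu⟩
        refine ⟨mfderiv ((𝓡 1).prod (𝓡 1)) I π x u, ?_⟩
        rw [← hu]
        exact (hd x u).symm
    rw [tangent, tangentAff, this, hF]
  have hcpt : CompactSpace M := hs.compactSpace hπ.contMDiff.continuous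
  refine ⟨F, hsm, ?_, ?_, ?_⟩
  · intro m
    obtain ⟨x, rfl⟩ := hs m
    rw [injective_iff_map_eq_zero]
    intro w hw
    obtain ⟨u, hu⟩ := hsur x w
    have h1 : Dm f x u = 0 := by
      rw [hd x u]
      rw [← hu] at hw
      exact hw
    have h2 : u = 0 := (injective_iff_map_eq_zero _).1 (hf.2.1 x) u h1
    rw [← hu, h2]
    exact map_zero _
  · refine (hsm.continuous.isClosedEmbedding ?_).isEmbedding
    intro m m' h
    obtain ⟨x, rfl⟩ := hs m
    obtain ⟨y, rfl⟩ := hs m'
    rw [hF, hF] at h
    exact (hfib x y).2 h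
  · intro m m' hne
    obtain ⟨x, rfl⟩ := hs m
    obtain ⟨y, rfl⟩ := hs m'
    rw [htan, htan]
    exact hf.2.2 x y fun h => hne ((hfib x y).2 h)

end Pool.Agent.H69.SkewQuot
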