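import Pool.Agent.H69.Skew

/-! A totally skew embedding of the two-sphere in seven-space. -/

set_option autoImplicit false

open scoped Manifold ContDiff
open Metric

namespace Pool.Agent.H69.Skew

/-- the map -/
noncomputable def g7 (x : EuclideanSpace ℝ (Fin 3)) : EuclideanSpace ℝ (Fin 7) :=
  !₂[x 0, x 1, x 2, x 0 * x 1, x 1 * x 2, x 2 * x 0, x 0 * x 0 - x 1 * x 1]

noncomputable abbrev pj (i : Fin 3) : EuclideanSpace ℝ (Fin 3) →L[ℝ] ℝ := EuclideanSpace.proj i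

theorem pj_has (i : Fin 3) (x : EuclideanSpace ℝ (Fin 3)) : HasFDerivAt (fun z => z i) (pj i) x :=
  (pj i).hasFDerivAt

theorem pj_mul (i j : Fin 3) (x : EuclideanSpace ℝ (Fin 3)) :
    HasFDerivAt (fun z : EuclideanSpace ℝ (Fin 3) => z i * z j) (x i • pj j + x j • pj i) x :=
  (pj_has i x).mul (pj_has j x)

theorem g7_contDiff : ContDiff ℝ ∞ g7 := by
  rw [contDiff_euclidean]
  have h : ∀ i : Fin 3, ContDiff ℝ ∞ (fun z : EuclideanSpace ℝ (Fin 3) => z i) := fun i =>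
    (pj i).contDiff
  intro i
  fin_cases i
  · exact h 0
  · exact h 1
  · exact h 2
  · exact (h 0).mul (h 1)
  · exact (h 1).mul (h 2)
  · exact (h 2).mul (h 0)
  · exact ((h 0).mul (h 0)).sub ((h 1).mul (h 1))

theorem g7_deriv (x w : EuclideanSpace ℝ (Fin 3)) :
    fderiv ℝ g7 x w 0 = w 0 ∧ fderiv ℝ g7 x w 1 = w 1 ∧ fderiv ℝ g7 x w 2 = w 2 ∧
    fderiv ℝ g7 x w 3 = x 0 * w 1 + x 1 * w 0 ∧ fderiv ℝ g7 x w 4 = x 1 * w 2 + x 2 * w 1 ∧
    fderiv ℝ g7 x w 5 = x 2 * w 0 + x 0 * w 2 ∧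
    fderiv ℝ g7 x w 6 = 2 * x 0 * w 0 - 2 * x 1 * w 1 := by
  have hd : DifferentiableAt ℝ g7 x := (g7_contDiff.differentiable (by simp)) x
  refine ⟨?_, ?_, ?_, ?_, ?_, ?_, ?_⟩
  · exact fderiv_coord g7 x w hd 0 _ (pj_has 0 x)
  · exact fderiv_coord g7 x w hd 1 _ (pj_has 1 x)
  · exact fderiv_coord g7 x w hd 2 _ (pj_has 2 x)
  · exact fderiv_coord g7 x w hd 3 _ (pj_mul 0 1 x)
  · exact fderiv_coord g7 x w hd 4 _ (pj_mul 1 2 x)
  · exact fderiv_coord g7 x w hd 5 _ (pj_mul 2 0 x)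
  · rw [fderiv_coord g7 x w hd 6 _ ((pj_mul 0 0 x).sub (pj_mul 1 1 x))]
    simp only [sub_apply, add_apply, smul_apply, PiLp.proj_apply, smul_eq_mul]
    ring

/-- the algebraic core -/
theorem core {d0 d1 d2 w0 w1 w2 : ℝ} (h1 : d0 * w1 + d1 * w0 = 0) (h2 : d1 * w2 + d2 * w1 = 0)
    (h3 : d2 * w0 + d0 * w2 = 0) (h4 : d0 * w0 - d1 * w1 = 0)
    (h5 : d0 * w0 + d1 * w1 + d2 * w2 = 0) (hd : d0 ≠ 0 ∨ d1 ≠ 0 ∨ d2 ≠ 0) :
    w0 = 0 ∧ w1 = 0 ∧ w2 = 0 := by
  have ha : (d0 * w0) ^ 2 + (d0 * w1) ^ 2 = 0 := by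
    have e1 : d1 * w1 = d0 * w0 := by linarith
    have e2 : d1 * w0 = -(d0 * w1) := by linarith
    have e3 : (d0 * w0) * (d1 * w1) = (d0 * w1) * (d1 * w0) := by ring
    rw [e1, e2] at e3
    nlinarith
  have p00 : d0 * w0 = 0 := by nlinarith [sq_nonneg (d0 * w0), sq_nonneg (d0 * w1)]
  have p01 : d0 * w1 = 0 := by nlinarith [sq_nonneg (d0 * w0), sq_nonneg (d0 * w1)]
  have p11 : d1 * w1 = 0 := by linarith
  have p10 : d1 * w0 = 0 := by linarith
  have p22 : d2 * w2 = 0 := by linarith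
  have p12 : d1 * w2 = 0 := by
    have e3 : (d1 * w1) * (d2 * w2) = (d1 * w2) * (d2 * w1) := by ring
    rw [p11] at e3
    have e2 : d2 * w1 = -(d1 * w2) := by linarith
    rw [e2] at e3
    nlinarith [sq_nonneg (d1 * w2)]
  have p21 : d2 * w1 = 0 := by linarith
  have p20 : d2 * w0 = 0 := by
    have e3 : (d0 * w0) * (d2 * w2) = (d0 * w2) * (d2 * w0) := by ring
    rw [p00] at e3
    have e2 : d0 * w2 = -(d2 * w0) := by linarith
    rw [e2] at e3
    nlinarith [sq_nonneg (d2 * w0)]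
  have p02 : d0 * w2 = 0 := by linarith
  rcases hd with h | h | h
  · exact ⟨(mul_eq_zero.1 p00).resolve_left h, (mul_eq_zero.1 p01).resolve_left h,
      (mul_eq_zero.1 p02).resolve_left h⟩
  · exact ⟨(mul_eq_zero.1 p10).resolve_left h, (mul_eq_zero.1 p11).resolve_left h,
      (mul_eq_zero.1 p12).resolve_left h⟩
  · exact ⟨(mul_eq_zero.1 p20).resolve_left h, (mul_eq_zero.1 p21).resolve_left h,
      (mul_eq_zero.1 p22).resolve_left h⟩

theorem sq3 {a b c : ℝ} (h : a ≠ 0 ∨ b ≠ 0 ∨ c ≠ 0) : a ^ 2 + b ^ 2 + c ^ 2 ≠ 0 := by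
  rcases h with h | h | h
  · have := pow_pos (abs_pos.2 h) 2
    rw [sq_abs] at this
    nlinarith [sq_nonneg b, sq_nonneg c]
  · have := pow_pos (abs_pos.2 h) 2
    rw [sq_abs] at this
    nlinarith [sq_nonneg a, sq_nonneg c]
  · have := pow_pos (abs_pos.2 h) 2
    rw [sq_abs] at this
    nlinarith [sq_nonneg a, sq_nonneg b]

theorem inner3 (x w : EuclideanSpace ℝ (Fin 3)) :
    inner ℝ x w = (x 0 * w 0 + x 1 * w 1 + x 2 * w 2 : ℝ) := by
  rw [PiLp.inner_apply, Fin.sum_univ_three]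
  simp only [RCLike.inner_apply, conj_trivial]
  ring

theorem unit3 (x : S2) : (x : EuclideanSpace ℝ (Fin 3)) 0 * (x : EuclideanSpace ℝ (Fin 3)) 0 +
    (x : EuclideanSpace ℝ (Fin 3)) 1 * (x : EuclideanSpace ℝ (Fin 3)) 1 +
    (x : EuclideanSpace ℝ (Fin 3)) 2 * (x : EuclideanSpace ℝ (Fin 3)) 2 = 1 := by
  rw [← inner3, real_inner_self_eq_norm_sq]
  have : ‖(x : EuclideanSpace ℝ (Fin 3))‖ = 1 := by simpa using x.2
  rw [this]; norm_num

theorem ext3 {a b : EuclideanSpace ℝ (Fin 3)} (h0 : a 0 = b 0) (h1 : a 1 = b 1) (h2 : a 2 = b 2) :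
    a = b := by
  ext i
  fin_cases i
  · exact h0
  · exact h1
  · exact h2

theorem g7_inj {x y : EuclideanSpace ℝ (Fin 3)} (h : g7 x = g7 y) : x = y := by
  refine ext3 ?_ ?_ ?_
  · exact congrArg (fun v : EuclideanSpace ℝ (Fin 7) => v 0) h
  · exact congrArg (fun v : EuclideanSpace ℝ (Fin 7) => v 1) h
  · exact congrArg (fun v : EuclideanSpace ℝ (Fin 7) => v 2) h

theorem sphere7 : TotallySkewEmbedding (fun z : S2 => g7 z) := by
  constructor
  · refine criterion g7 (fun x => g7_contDiff.contDiffAt) ?_ ?_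
    · intro x w _ h
      obtain ⟨e0, e1, e2, -⟩ := g7_deriv x w
      rw [h] at e0 e1 e2
      exact ext3 e0.symm e1.symm e2.symm
    · intro x y hxy u v hu hv t h
      set X : EuclideanSpace ℝ (Fin 3) := (x : EuclideanSpace ℝ (Fin 3)) with hX
      set Y : EuclideanSpace ℝ (Fin 3) := (y : EuclideanSpace ℝ (Fin 3)) with hY
      rw [inner3] at hu hv
      have ux := unit3 x
      have uy := unit3 y
      rw [← hX] at ux
      rw [← hY] at uy
      obtain ⟨a0, a1, a2, a3, a4, a5, a6⟩ := g7_deriv X u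
      obtain ⟨b0, b1, b2, b3, b4, b5, b6⟩ := g7_deriv Y v
      have hc : ∀ i, fderiv ℝ g7 X u i - fderiv ℝ g7 Y v i + t * (g7 X i - g7 Y i) = 0 := by
        intro i
        have := congrArg (fun z : EuclideanSpace ℝ (Fin 7) => z i) h
        simpa using this
      have c0 := hc 0
      have c1 := hc 1
      have c2 := hc 2
      have c3 := hc 3
      have c4 := hc 4
      have c5 := hc 5
      have c6 := hc 6
      rw [a0, b0] at c0
      rw [a1, b1] at c1
      rw [a2, b2] at c2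
      rw [a3, b3] at c3
      rw [a4, b4] at c4
      rw [a5, b5] at c5
      rw [a6, b6] at c6
      have g0 : ∀ Z, g7 Z 0 = Z 0 := fun _ => rfl
      have g1 : ∀ Z, g7 Z 1 = Z 1 := fun _ => rfl
      have g2 : ∀ Z, g7 Z 2 = Z 2 := fun _ => rfl
      have g3 : ∀ Z, g7 Z 3 = Z 0 * Z 1 := fun _ => rfl
      have g4 : ∀ Z, g7 Z 4 = Z 1 * Z 2 := fun _ => rfl
      have g5 : ∀ Z, g7 Z 5 = Z 2 * Z 0 := fun _ => rfl
      have g6 : ∀ Z, g7 Z 6 = Z 0 * Z 0 - Z 1 * Z 1 := fun _ => rfl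
      rw [g0, g0] at c0
      rw [g1, g1] at c1
      rw [g2, g2] at c2
      rw [g3, g3] at c3
      rw [g4, g4] at c4
      rw [g5, g5] at c5
      rw [g6, g6] at c6
      have v0 : v 0 = u 0 + t * (X 0 - Y 0) := by linarith
      have v1 : v 1 = u 1 + t * (X 1 - Y 1) := by linarith
      have v2 : v 2 = u 2 + t * (X 2 - Y 2) := by linarith
      rw [v0, v1, v2] at hv
      rw [v0, v1] at c3 c6
      rw [v1, v2] at c4
      rw [v0, v2] at c5
      have hne : X ≠ Y := fun h => hxy (by rw [h])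
      have hd : X 0 - Y 0 ≠ 0 ∨ X 1 - Y 1 ≠ 0 ∨ X 2 - Y 2 ≠ 0 := by
        by_contra hcon
        push Not at hcon
        exact hne (ext3 (by linarith [hcon.1]) (by linarith [hcon.2.1]) (by linarith [hcon.2.2]))
      obtain ⟨r0, r1, r2⟩ := core (d0 := X 0 - Y 0) (d1 := X 1 - Y 1) (d2 := X 2 - Y 2)
        (w0 := 2 * u 0 + t * (X 0 - Y 0)) (w1 := 2 * u 1 + t * (X 1 - Y 1))
        (w2 := 2 * u 2 + t * (X 2 - Y 2)) (by linear_combination 2 * c3) (by linear_combination 2 * c4)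
        (by linear_combination 2 * c5) (by linear_combination c6)
        (by linear_combination 2 * hu - 2 * hv + t * ux - t * uy) hd
      have ht : t = 0 := by
        have e : t * ((X 0 - Y 0) ^ 2 + (X 1 - Y 1) ^ 2 + (X 2 - Y 2) ^ 2) = 0 := by
          linear_combination 2 * (X 0 * r0 + X 1 * r1 + X 2 * r2) - 4 * hu - t * ux + t * uy
        exact (mul_eq_zero.1 e).resolve_right (sq3 hd)
      refine ⟨ext3 ?_ ?_ ?_, ht⟩
      · show u 0 = 0
        rw [ht] at r0; linarith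
      · show u 1 = 0
        rw [ht] at r1; linarith
      · show u 2 = 0
        rw [ht] at r2; linarith
  · have hc : Continuous (fun z : S2 => g7 z) := g7_contDiff.continuous.comp continuous_subtype_val
    exact (hc.isClosedEmbedding (fun a b h => Subtype.ext (g7_inj h))).isEmbedding

end Pool.Agent.H69.Skew
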