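import Pool.Agent.H69.SkewTorusDefs

/-! A totally skew embedding of the two-torus in seven-space. -/

set_option autoImplicit false

open scoped Manifold ContDiff
open Metric

namespace Pool.Agent.H69.SkewTorus

open Pool.Agent.H69.Skew (Skew)

/-- The map: with `p = z.1` and `r = z.2` as complex numbers it is
`(p, r, Re (p * conj r), (-1 + i) p^2 + p r + (1 + i) r^2)`. -/
noncomputable def g7 (z : E2 × E2) : EuclideanSpace ℝ (Fin 7) :=
  !₂[z.1 0, z.1 1, z.2 0, z.2 1, z.1 0 * z.2 0 + z.1 1 * z.2 1,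
    -(z.1 0 * z.1 0 - z.1 1 * z.1 1) - 2 * (z.1 0 * z.1 1) + (z.2 0 * z.2 0 - z.2 1 * z.2 1) -
      2 * (z.2 0 * z.2 1) + (z.1 0 * z.2 0 - z.1 1 * z.2 1),
    (z.1 0 * z.1 0 - z.1 1 * z.1 1) - 2 * (z.1 0 * z.1 1) + (z.2 0 * z.2 0 - z.2 1 * z.2 1) +
      2 * (z.2 0 * z.2 1) + (z.1 0 * z.2 1 + z.1 1 * z.2 0)]

theorem g7_contDiff : ContDiff ℝ ∞ g7 := by
  rw [contDiff_euclidean]
  have h1 : ∀ i : Fin 2, ContDiff ℝ ∞ (fun z : E2 × E2 => z.1 i) := fun i =>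
    (EuclideanSpace.proj i : E2 →L[ℝ] ℝ).contDiff.comp contDiff_fst
  have h2 : ∀ i : Fin 2, ContDiff ℝ ∞ (fun z : E2 × E2 => z.2 i) := fun i =>
    (EuclideanSpace.proj i : E2 →L[ℝ] ℝ).contDiff.comp contDiff_snd
  have c2 : ContDiff ℝ ∞ (fun _ : E2 × E2 => (2 : ℝ)) := contDiff_const
  intro i
  fin_cases i
  · exact h1 0
  · exact h1 1
  · exact h2 0
  · exact h2 1
  · exact ((h1 0).mul (h2 0)).add ((h1 1).mul (h2 1))
  · exact ((((((h1 0).mul (h1 0)).sub ((h1 1).mul (h1 1))).neg.sub (c2.mul ((h1 0).mul (h1 1)))).add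
      (((h2 0).mul (h2 0)).sub ((h2 1).mul (h2 1)))).sub (c2.mul ((h2 0).mul (h2 1)))).add
      (((h1 0).mul (h2 0)).sub ((h1 1).mul (h2 1)))
  · exact ((((((h1 0).mul (h1 0)).sub ((h1 1).mul (h1 1))).sub (c2.mul ((h1 0).mul (h1 1)))).add
      (((h2 0).mul (h2 0)).sub ((h2 1).mul (h2 1)))).add (c2.mul ((h2 0).mul (h2 1)))).add
      (((h1 0).mul (h2 1)).add ((h1 1).mul (h2 0)))

/-- the polarised map -/
noncomputable def b7 (z w : E2 × E2) : EuclideanSpace ℝ (Fin 7) :=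
  !₂[w.1 0, w.1 1, w.2 0, w.2 1,
    z.1 0 * w.2 0 + w.1 0 * z.2 0 + (z.1 1 * w.2 1 + w.1 1 * z.2 1),
    -(2 * z.1 0 * w.1 0 - 2 * z.1 1 * w.1 1) - 2 * (z.1 0 * w.1 1 + w.1 0 * z.1 1) +
      (2 * z.2 0 * w.2 0 - 2 * z.2 1 * w.2 1) - 2 * (z.2 0 * w.2 1 + w.2 0 * z.2 1) +
      (z.1 0 * w.2 0 + w.1 0 * z.2 0 - (z.1 1 * w.2 1 + w.1 1 * z.2 1)),
    (2 * z.1 0 * w.1 0 - 2 * z.1 1 * w.1 1) - 2 * (z.1 0 * w.1 1 + w.1 0 * z.1 1) +
      (2 * z.2 0 * w.2 0 - 2 * z.2 1 * w.2 1) + 2 * (z.2 0 * w.2 1 + w.2 0 * z.2 1) +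
      (z.1 0 * w.2 1 + w.1 0 * z.2 1 + (z.1 1 * w.2 0 + w.1 1 * z.2 0))]

theorem g7_deriv (x w : E2 × E2) : fderiv ℝ g7 x w = b7 x w := by
  refine fderiv_line g7 x w ((g7_contDiff.differentiable (by simp)) x) (b7 x w)
    (!₂[0, 0, 0, 0, w.1 0 * w.2 0 + w.1 1 * w.2 1,
    -(w.1 0 * w.1 0 - w.1 1 * w.1 1) - 2 * (w.1 0 * w.1 1) + (w.2 0 * w.2 0 - w.2 1 * w.2 1) -
      2 * (w.2 0 * w.2 1) + (w.1 0 * w.2 0 - w.1 1 * w.2 1),
    (w.1 0 * w.1 0 - w.1 1 * w.1 1) - 2 * (w.1 0 * w.1 1) + (w.2 0 * w.2 0 - w.2 1 * w.2 1) +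
      2 * (w.2 0 * w.2 1) + (w.1 0 * w.2 1 + w.1 1 * w.2 0)]) ?_
  intro s
  ext i
  fin_cases i <;> simp [g7, b7] <;> ring

/-- one circle factor -/
theorem factor {p0 p1 q0 q1 u0 u1 t : ℝ} (hp : p0 * p0 + p1 * p1 = 1)
    (hq : q0 * q0 + q1 * q1 = 1) (hu : p0 * u0 + p1 * u1 = 0)
    (hv : q0 * (u0 + t * (p0 - q0)) + q1 * (u1 + t * (p1 - q1)) = 0)
    (hn : (p0 - q0) ^ 2 + (p1 - q1) ^ 2 ≠ 0) :
    ∃ α : ℝ, 2 * u0 + t * (p0 - q0) = -(α * (p1 - q1)) ∧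
      2 * u1 + t * (p1 - q1) = α * (p0 - q0) ∧
      α ^ 2 * (4 - ((p0 - q0) ^ 2 + (p1 - q1) ^ 2)) = t ^ 2 * ((p0 - q0) ^ 2 + (p1 - q1) ^ 2) := by
  set n := (p0 - q0) ^ 2 + (p1 - q1) ^ 2 with hndef
  set w0 := 2 * u0 + t * (p0 - q0) with hw0
  set w1 := 2 * u1 + t * (p1 - q1) with hw1
  have hperp : (p0 - q0) * w0 + (p1 - q1) * w1 = 0 := by
    rw [hw0, hw1]; linear_combination 2 * hu - 2 * hv + t * hp - t * hq
  have e0 : w0 = -(((p0 - q0) * w1 - (p1 - q1) * w0) / n * (p1 - q1)) := by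
    field_simp
    rw [hndef]
    linear_combination (p0 - q0) * hperp
  have e1 : w1 = ((p0 - q0) * w1 - (p1 - q1) * w0) / n * (p0 - q0) := by
    field_simp
    rw [hndef]
    linear_combination (p1 - q1) * hperp
  refine ⟨((p0 - q0) * w1 - (p1 - q1) * w0) / n, e0, e1, ?_⟩
  set α := ((p0 - q0) * w1 - (p1 - q1) * w0) / n
  have hpw : p0 * w0 + p1 * w1 = t * n / 2 := by
    rw [hw0, hw1, hndef]; linear_combination 2 * hu + t / 2 * hp - t / 2 * hq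
  have hm : α * (p0 * q1 - p1 * q0) = t * n / 2 := by
    rw [e0, e1] at hpw
    linear_combination hpw
  have hc : p0 * q0 + p1 * q1 = 1 - n / 2 := by
    rw [hndef]; linear_combination (1 / 2) * hp + (1 / 2) * hq
  have hm2 : (p0 * q1 - p1 * q0) ^ 2 = n - n ^ 2 / 4 := by
    have : (p0 * q1 - p1 * q0) ^ 2 + (p0 * q0 + p1 * q1) ^ 2 = 1 := by
      linear_combination (q0 * q0 + q1 * q1) * hp + hq
    rw [hc] at this
    linear_combination this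
  have h1 : α ^ 2 * (n - n ^ 2 / 4) = t ^ 2 * n ^ 2 / 4 := by
    rw [← hm2]
    linear_combination (α * (p0 * q1 - p1 * q0) + t * n / 2) * hm
  have h2 : n * (α ^ 2 * (4 - n) - t ^ 2 * n) = 0 := by linear_combination 4 * h1
  have h3 := (mul_eq_zero.1 h2).resolve_left hn
  linarith

theorem norm_le {p0 p1 q0 q1 : ℝ} (hp : p0 * p0 + p1 * p1 = 1) (hq : q0 * q0 + q1 * q1 = 1) :
    (p0 - q0) ^ 2 + (p1 - q1) ^ 2 ≤ 4 := by
  nlinarith [sq_nonneg (p0 + q0), sq_nonneg (p1 + q1)]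

/-- the case in which both circle coordinates differ -/
theorem bothcase {a0 a1 b0 b1 α β t n m : ℝ} (hn : n = a0 ^ 2 + a1 ^ 2) (hm : m = b0 ^ 2 + b1 ^ 2)
    (n0 : 0 < n) (m0 : 0 < m) (n4 : n ≤ 4) (m4 : m ≤ 4)
    (ha : α ^ 2 * (4 - n) = t ^ 2 * n) (hb : β ^ 2 * (4 - m) = t ^ 2 * m)
    (e4 : (α - β) * (a1 * b0 - a0 * b1) = 0)
    (e5 : 2 * α * (-(a0 ^ 2 - a1 ^ 2) - 2 * (a0 * a1)) + (α + β) * (a0 * b0 - a1 * b1) +
      2 * β * ((b0 ^ 2 - b1 ^ 2) - 2 * (b0 * b1)) = 0)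
    (e6 : 2 * α * ((a0 ^ 2 - a1 ^ 2) - 2 * (a0 * a1)) + (α + β) * (a0 * b1 + a1 * b0) +
      2 * β * ((b0 ^ 2 - b1 ^ 2) + 2 * (b0 * b1)) = 0) : α = 0 ∧ β = 0 := by
  have hx : (a0 * b0 + a1 * b1) ^ 2 + (a1 * b0 - a0 * b1) ^ 2 = n * m := by rw [hn, hm]; ring
  have hI : (α + β) * (n * m) = 2 * (α * n - β * m) * ((a0 * b0 + a1 * b1) + (a1 * b0 - a0 * b1)) := by
    rw [hn, hm]
    linear_combination (a0 * b0 - a1 * b1) * e5 + (a0 * b1 + a1 * b0) * e6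
  have hII : (α * n + β * m) * ((a0 * b0 + a1 * b1) - (a1 * b0 - a0 * b1)) = 0 := by
    rw [hn, hm]
    linear_combination (1 / 2) * ((a0 * b0 - a1 * b1) * e6 - (a0 * b1 + a1 * b0) * e5)
  rcases mul_eq_zero.1 e4 with h | h
  · have hαβ : α = β := by linarith
    rw [← hαβ] at hb hI
    have h1 : α ^ 2 * (m - n) = 0 := by
      have : m * (α ^ 2 * (4 - n)) = n * (α ^ 2 * (4 - m)) := by rw [ha, hb]; ring
      linear_combination this / 4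
    have hα : α = 0 := by
      rcases mul_eq_zero.1 h1 with h2 | h2
      · exact pow_eq_zero_iff (two_ne_zero) |>.1 h2
      · have : m = n := by linarith
        rw [this] at hI
        have h3 : α * (2 * (n * n)) = 0 := by linear_combination hI
        exact (mul_eq_zero.1 h3).resolve_right (by positivity)
    exact ⟨hα, by rw [← hαβ]; exact hα⟩
  · rw [h] at hx hI hII
    have hx0 : a0 * b0 + a1 * b1 ≠ 0 := by
      intro h0
      rw [h0] at hx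
      have : 0 < n * m := mul_pos n0 m0
      linarith
    have h1 : α * n + β * m = 0 := by
      rw [sub_zero] at hII
      exact (mul_eq_zero.1 hII).resolve_right hx0
    have h2 : (α * n) ^ 2 * ((4 - n) * m ^ 3 - (4 - m) * n ^ 3) = 0 := by
      have e1 : (β * m) ^ 2 = (α * n) ^ 2 := by
        have : β * m = -(α * n) := by linarith
        rw [this]; ring
      have e2 : (α * n) ^ 2 * (4 - n) = t ^ 2 * n ^ 3 := by linear_combination n ^ 2 * ha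
      have e3 : (α * n) ^ 2 * (4 - m) = t ^ 2 * m ^ 3 := by
        rw [← e1]; linear_combination m ^ 2 * hb
      linear_combination m ^ 3 * e2 - n ^ 3 * e3
    have h3 : (4 - n) * m ^ 3 - (4 - m) * n ^ 3 =
        (m - n) * (4 * (n ^ 2 + n * m + m ^ 2) - n * m * (n + m)) := by ring
    have h4 : 0 < 4 * (n ^ 2 + n * m + m ^ 2) - n * m * (n + m) := by
      have : n * m * (n + m) ≤ n * m * 8 := by
        apply mul_le_mul_of_nonneg_left (by linarith) (by positivity)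
      nlinarith [sq_nonneg (n - m), mul_pos n0 m0, sq_nonneg (n + m)]
    rw [h3] at h2
    rcases mul_eq_zero.1 h2 with h5 | h5
    · have h6 : α * n = 0 := pow_eq_zero_iff (two_ne_zero) |>.1 h5
      have h7 : β * m = 0 := by linarith
      exact ⟨(mul_eq_zero.1 h6).resolve_right n0.ne', (mul_eq_zero.1 h7).resolve_right m0.ne'⟩
    · have h6 : m = n := by
        have := (mul_eq_zero.1 h5).resolve_right h4.ne'
        linarith
      rw [h6] at h1 hI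
      have h7 : β = -α := by
        have : n * (α + β) = 0 := by linear_combination h1
        have := (mul_eq_zero.1 this).resolve_left n0.ne'
        linarith
      rw [h7] at hI
      have h8 : α * (n * (a0 * b0 + a1 * b1)) = 0 := by linear_combination (-1 / 4) * hI
      have h9 := (mul_eq_zero.1 h8).resolve_right (mul_ne_zero n0.ne' hx0)
      exact ⟨h9, by rw [h7, h9]; simp⟩

/-- the case in which the first circle coordinates agree -/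
theorem onecase {k0 k1 b0 b1 β : ℝ} (hm : b0 ^ 2 + b1 ^ 2 ≠ 0) (e4 : k0 * b0 + k1 * b1 = 0)
    (e5 : -(4 * β * (b0 * b1)) - 2 * β * (b0 ^ 2 - b1 ^ 2) + (k0 * b0 - k1 * b1) = 0)
    (e6 : -(4 * β * (b0 * b1)) + 2 * β * (b0 ^ 2 - b1 ^ 2) + (k0 * b1 + k1 * b0) = 0) :
    β = 0 ∧ k0 = 0 ∧ k1 = 0 := by
  have h1 : β * ((b0 ^ 2 + b1 ^ 2) * (b0 ^ 2 + b1 ^ 2)) = 0 := by
    linear_combination (1 / 2) * (b0 ^ 2 + b1 ^ 2) * e4 - (1 / 2) * (b0 ^ 2 - b1 ^ 2) * e5 -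
      (b0 * b1) * e6
  have hβ : β = 0 := (mul_eq_zero.1 h1).resolve_right (mul_ne_zero hm hm)
  rw [hβ] at e5 e6
  have h2 : k0 * (b0 ^ 2 + b1 ^ 2) = 0 := by linear_combination b0 * e5 + b1 * e6
  have h3 : k1 * (b0 ^ 2 + b1 ^ 2) = 0 := by linear_combination b0 * e6 - b1 * e5
  exact ⟨hβ, (mul_eq_zero.1 h2).resolve_right hm, (mul_eq_zero.1 h3).resolve_right hm⟩

/-- the case in which the second circle coordinates agree -/
theorem onecase' {l0 l1 a0 a1 α : ℝ} (hn : a0 ^ 2 + a1 ^ 2 ≠ 0) (e4 : a0 * l0 + a1 * l1 = 0)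
    (e5 : 4 * α * (a0 * a1) - 2 * α * (a0 ^ 2 - a1 ^ 2) + (a0 * l0 - a1 * l1) = 0)
    (e6 : -(4 * α * (a0 * a1)) - 2 * α * (a0 ^ 2 - a1 ^ 2) + (a0 * l1 + a1 * l0) = 0) :
    α = 0 ∧ l0 = 0 ∧ l1 = 0 := by
  have h1 : α * ((a0 ^ 2 + a1 ^ 2) * (a0 ^ 2 + a1 ^ 2)) = 0 := by
    linear_combination (1 / 2) * (a0 ^ 2 + a1 ^ 2) * e4 - (1 / 2) * (a0 ^ 2 - a1 ^ 2) * e5 -
      (a0 * a1) * e6
  have hα : α = 0 := (mul_eq_zero.1 h1).resolve_right (mul_ne_zero hn hn)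
  rw [hα] at e5 e6
  have h2 : l0 * (a0 ^ 2 + a1 ^ 2) = 0 := by linear_combination a0 * e5 + a1 * e6
  have h3 : l1 * (a0 ^ 2 + a1 ^ 2) = 0 := by linear_combination a0 * e6 - a1 * e5
  exact ⟨hα, (mul_eq_zero.1 h2).resolve_right hn, (mul_eq_zero.1 h3).resolve_right hn⟩

theorem sq_zero {a b : ℝ} (h : a ^ 2 + b ^ 2 = 0) : a = 0 ∧ b = 0 := by
  constructor <;> nlinarith [sq_nonneg a, sq_nonneg b]

theorem t_zero {t m : ℝ} (hm : m ≠ 0) (h : (0 : ℝ) ^ 2 * (4 - m) = t ^ 2 * m) : t = 0 := by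
  have : t ^ 2 * m = 0 := by linear_combination -h
  exact pow_eq_zero_iff (two_ne_zero) |>.1 ((mul_eq_zero.1 this).resolve_right hm)

/-- the algebraic core -/
theorem core {a0 a1 b0 b1 p0 p1 q0 q1 r0 r1 s0 s1 u0 u1 v0 v1 t : ℝ}
    (dA0 : a0 = p0 - q0) (dA1 : a1 = p1 - q1) (dB0 : b0 = r0 - s0) (dB1 : b1 = r1 - s1)
    (hp : p0 * p0 + p1 * p1 = 1)
    (hq : q0 * q0 + q1 * q1 = 1) (hr : r0 * r0 + r1 * r1 = 1) (hs : s0 * s0 + s1 * s1 = 1)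
    (hu : p0 * u0 + p1 * u1 = 0) (hu' : q0 * (u0 + t * (p0 - q0)) + q1 * (u1 + t * (p1 - q1)) = 0)
    (hv : r0 * v0 + r1 * v1 = 0) (hv' : s0 * (v0 + t * (r0 - s0)) + s1 * (v1 + t * (r1 - s1)) = 0)
    (hne : a0 ^ 2 + a1 ^ 2 ≠ 0 ∨ b0 ^ 2 + b1 ^ 2 ≠ 0)
    (e4 : a0 * (2 * v0 + t * b0) + (2 * u0 + t * a0) * b0 +
      (a1 * (2 * v1 + t * b1) + (2 * u1 + t * a1) * b1) = 0)
    (e5 : -(2 * a0 * (2 * u0 + t * a0) - 2 * a1 * (2 * u1 + t * a1)) -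
      2 * (a0 * (2 * u1 + t * a1) + (2 * u0 + t * a0) * a1) +
      (2 * b0 * (2 * v0 + t * b0) - 2 * b1 * (2 * v1 + t * b1)) -
      2 * (b0 * (2 * v1 + t * b1) + (2 * v0 + t * b0) * b1) +
      (a0 * (2 * v0 + t * b0) + (2 * u0 + t * a0) * b0 -
      (a1 * (2 * v1 + t * b1) + (2 * u1 + t * a1) * b1)) = 0)
    (e6 : (2 * a0 * (2 * u0 + t * a0) - 2 * a1 * (2 * u1 + t * a1)) -
      2 * (a0 * (2 * u1 + t * a1) + (2 * u0 + t * a0) * a1) +
      (2 * b0 * (2 * v0 + t * b0) - 2 * b1 * (2 * v1 + t * b1)) +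
      2 * (b0 * (2 * v1 + t * b1) + (2 * v0 + t * b0) * b1) +
      (a0 * (2 * v1 + t * b1) + (2 * u0 + t * a0) * b1 +
      (a1 * (2 * v0 + t * b0) + (2 * u1 + t * a1) * b0)) = 0) :
    (u0 = 0 ∧ u1 = 0 ∧ v0 = 0 ∧ v1 = 0) ∧ t = 0 := by
  have n4 := norm_le hp hq
  have m4 := norm_le hr hs
  have F1 := factor hp hq hu hu'
  have F2 := factor hr hs hv hv'
  rw [← dA0, ← dA1] at n4 F1
  rw [← dB0, ← dB1] at m4 F2
  clear hp hq hr hs hu hu' hv hv' dA0 dA1 dB0 dB1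
  by_cases hn : a0 ^ 2 + a1 ^ 2 = 0
  · -- the first coordinates agree
    have hm := hne.resolve_left (by simpa using hn)
    obtain ⟨ha0, ha1⟩ := sq_zero hn
    obtain ⟨β, f0, f1, f2⟩ := F2 hm
    rw [f0, f1, ha0, ha1] at e4 e5 e6
    obtain ⟨hβ, k0, k1⟩ := onecase (k0 := 2 * u0) (k1 := 2 * u1) (β := β) hm
      (by linear_combination e4) (by linear_combination e5) (by linear_combination e6)
    rw [hβ] at f0 f1 f2
    have ht := t_zero hm f2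
    rw [ht] at f0 f1
    exact ⟨⟨by linarith, by linarith, by linarith, by linarith⟩, ht⟩
  · obtain ⟨α, g0, g1, g2⟩ := F1 hn
    by_cases hm : b0 ^ 2 + b1 ^ 2 = 0
    · obtain ⟨hb0, hb1⟩ := sq_zero hm
      rw [g0, g1, hb0, hb1] at e4 e5 e6
      obtain ⟨hα, k0, k1⟩ := onecase' (l0 := 2 * v0) (l1 := 2 * v1) (α := α) hn
        (by linear_combination e4) (by linear_combination e5) (by linear_combination e6)
      rw [hα] at g0 g1 g2
      have ht := t_zero hn g2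
      rw [ht] at g0 g1
      exact ⟨⟨by linarith, by linarith, by linarith, by linarith⟩, ht⟩
    · obtain ⟨β, f0, f1, f2⟩ := F2 hm
      rw [f0, f1, g0, g1] at e4 e5 e6
      obtain ⟨hα, hβ⟩ := bothcase (a0 := a0) (a1 := a1) (b0 := b0) (b1 := b1) (α := α) (β := β)
        (t := t) rfl rfl (lt_of_le_of_ne (by positivity) (Ne.symm hn))
        (lt_of_le_of_ne (by positivity) (Ne.symm hm)) n4 m4 g2 f2
        (by linear_combination -e4) (by linear_combination e6)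
        (by linear_combination -e5)
      rw [hα] at g0 g1 g2
      rw [hβ] at f0 f1 f2
      have ht := t_zero hn g2
      rw [ht] at g0 g1 f0 f1
      exact ⟨⟨by linarith, by linarith, by linarith, by linarith⟩, ht⟩

theorem final {p0 p1 q0 q1 r0 r1 s0 s1 u0 u1 u2 u3 w0 w1 w2 w3 t : ℝ}
    (hp : p0 * p0 + p1 * p1 = 1) (hr : r0 * r0 + r1 * r1 = 1) (hq : q0 * q0 + q1 * q1 = 1)
    (hs : s0 * s0 + s1 * s1 = 1) (hu : p0 * u0 + p1 * u1 = 0) (hu' : r0 * u2 + r1 * u3 = 0)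
    (hv : q0 * w0 + q1 * w1 = 0) (hv' : s0 * w2 + s1 * w3 = 0)
    (hne : (p0 - q0) ^ 2 + (p1 - q1) ^ 2 ≠ 0 ∨ (r0 - s0) ^ 2 + (r1 - s1) ^ 2 ≠ 0)
    (c0 : u0 - w0 + t * (p0 - q0) = 0) (c1 : u1 - w1 + t * (p1 - q1) = 0)
    (c2 : u2 - w2 + t * (r0 - s0) = 0) (c3 : u3 - w3 + t * (r1 - s1) = 0)
    (c4 : p0 * u2 + u0 * r0 + (p1 * u3 + u1 * r1) - (q0 * w2 + w0 * s0 + (q1 * w3 + w1 * s1)) +
      t * (p0 * r0 + p1 * r1 - (q0 * s0 + q1 * s1)) = 0)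
    (c5 : -(2 * p0 * u0 - 2 * p1 * u1) - 2 * (p0 * u1 + u0 * p1) +
      (2 * r0 * u2 - 2 * r1 * u3) - 2 * (r0 * u3 + u2 * r1) +
      (p0 * u2 + u0 * r0 - (p1 * u3 + u1 * r1)) -
      (-(2 * q0 * w0 - 2 * q1 * w1) - 2 * (q0 * w1 + w0 * q1) +
      (2 * s0 * w2 - 2 * s1 * w3) - 2 * (s0 * w3 + w2 * s1) +
      (q0 * w2 + w0 * s0 - (q1 * w3 + w1 * s1))) +
      t * (-(p0 * p0 - p1 * p1) - 2 * (p0 * p1) + (r0 * r0 - r1 * r1) - 2 * (r0 * r1) +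
        (p0 * r0 - p1 * r1) -
        (-(q0 * q0 - q1 * q1) - 2 * (q0 * q1) + (s0 * s0 - s1 * s1) - 2 * (s0 * s1) +
        (q0 * s0 - q1 * s1))) = 0)
    (c6 : (2 * p0 * u0 - 2 * p1 * u1) - 2 * (p0 * u1 + u0 * p1) +
      (2 * r0 * u2 - 2 * r1 * u3) + 2 * (r0 * u3 + u2 * r1) +
      (p0 * u3 + u0 * r1 + (p1 * u2 + u1 * r0)) -
      ((2 * q0 * w0 - 2 * q1 * w1) - 2 * (q0 * w1 + w0 * q1) +
      (2 * s0 * w2 - 2 * s1 * w3) + 2 * (s0 * w3 + w2 * s1) +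
      (q0 * w3 + w0 * s1 + (q1 * w2 + w1 * s0))) +
      t * ((p0 * p0 - p1 * p1) - 2 * (p0 * p1) + (r0 * r0 - r1 * r1) + 2 * (r0 * r1) +
        (p0 * r1 + p1 * r0) -
        ((q0 * q0 - q1 * q1) - 2 * (q0 * q1) + (s0 * s0 - s1 * s1) + 2 * (s0 * s1) +
        (q0 * s1 + q1 * s0))) = 0) :
    (u0 = 0 ∧ u1 = 0 ∧ u2 = 0 ∧ u3 = 0) ∧ t = 0 := by
  obtain rfl : w0 = u0 + t * (p0 - q0) := by linarith
  obtain rfl : w1 = u1 + t * (p1 - q1) := by linarith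
  obtain rfl : w2 = u2 + t * (r0 - s0) := by linarith
  obtain rfl : w3 = u3 + t * (r1 - s1) := by linarith
  exact core rfl rfl rfl rfl hp hq hr hs hu hv hu' hv' hne (by linear_combination 2 * c4)
    (by linear_combination 2 * c5) (by linear_combination 2 * c6)

theorem g7_inj {x y : E2 × E2} (h : g7 x = g7 y) : x = y := by
  refine Prod.ext (ext2 ?_ ?_) (ext2 ?_ ?_)
  · exact congrArg (fun v : EuclideanSpace ℝ (Fin 7) => v 0) h
  · exact congrArg (fun v : EuclideanSpace ℝ (Fin 7) => v 1) h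
  · exact congrArg (fun v : EuclideanSpace ℝ (Fin 7) => v 2) h
  · exact congrArg (fun v : EuclideanSpace ℝ (Fin 7) => v 3) h

theorem incl_inj {x y : T2} (h : incl x = incl y) : x = y :=
  Prod.ext (Subtype.ext (congrArg Prod.fst h)) (Subtype.ext (congrArg Prod.snd h))

theorem torus7 : TotallySkewEmbedding (fun z : T2 => g7 (incl z)) := by
  constructor
  · refine criterion g7 g7_contDiff ?_ ?_
    · intro x w _ _ h
      rw [g7_deriv] at h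
      have c : ∀ i, b7 (incl x) w i = 0 := fun i => by rw [h]; rfl
      exact Prod.ext (ext2 (c 0) (c 1)) (ext2 (c 2) (c 3))
    · intro x y hxy u v hu1 hu2 hv1 hv2 t h
      rw [g7_deriv, g7_deriv] at h
      rw [inner2] at hu1 hu2 hv1 hv2
      have ux1 := unit2 x.1
      have ux2 := unit2 x.2
      have uy1 := unit2 y.1
      have uy2 := unit2 y.2
      have hc : ∀ i, b7 (incl x) u i - b7 (incl y) v i + t * (g7 (incl x) i - g7 (incl y) i) = 0 := by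
        intro i
        have := congrArg (fun z : EuclideanSpace ℝ (Fin 7) => z i) h
        simpa using this
      have hne : ((x.1 : E2) 0 - (y.1 : E2) 0) ^ 2 + ((x.1 : E2) 1 - (y.1 : E2) 1) ^ 2 ≠ 0 ∨
          ((x.2 : E2) 0 - (y.2 : E2) 0) ^ 2 + ((x.2 : E2) 1 - (y.2 : E2) 1) ^ 2 ≠ 0 := by
        by_contra hcon
        rw [not_or, not_not, not_not] at hcon
        obtain ⟨h1, h2⟩ := hcon
        obtain ⟨h3, h4⟩ := sq_zero h1
        obtain ⟨h5, h6⟩ := sq_zero h2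
        refine hxy (congrArg g7 ?_)
        exact Prod.ext (ext2 (by simpa [incl] using sub_eq_zero.1 h3)
          (by simpa [incl] using sub_eq_zero.1 h4)) (ext2 (by simpa [incl] using sub_eq_zero.1 h5)
          (by simpa [incl] using sub_eq_zero.1 h6))
      obtain ⟨⟨k0, k1, k2, k3⟩, ht⟩ := final ux1 ux2 uy1 uy2 hu1 hu2 hv1 hv2 hne (hc 0) (hc 1) (hc 2)
        (hc 3) (hc 4) (hc 5) (hc 6)
      exact ⟨Prod.ext (ext2 k0 k1) (ext2 k2 k3), ht⟩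
  · have hc : Continuous (fun z : T2 => g7 (incl z)) :=
      g7_contDiff.continuous.comp incl_smooth.continuous
    exact (hc.isClosedEmbedding (fun a b h => incl_inj (g7_inj h))).isEmbedding

end Pool.Agent.H69.SkewTorus
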