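import Pool.Agent.H69.Skew

/-! Totally skew maps of the two-torus: definitions and the chain rule. -/

set_option autoImplicit false

open scoped Manifold ContDiff
open Metric

namespace Pool.Agent.H69.SkewTorus

open Pool.Agent.H69.Skew (Skew)

/-- Euclidean plane -/
abbrev E2 : Type := EuclideanSpace ℝ (Fin 2)

/-- the unit circle -/
abbrev S1 : Type := sphere (0 : EuclideanSpace ℝ (Fin 2)) 1

/-- the two-torus, a product of two circles, with the product manifold structure -/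
abbrev T2 : Type := S1 × S1

/-- the map is smooth -/
def Smooth {N : ℕ} (f : T2 → EuclideanSpace ℝ (Fin N)) : Prop :=
  ContMDiff ((𝓡 1).prod (𝓡 1)) (𝓡 N) ∞ f

/-- the derivative of the map at a point -/
noncomputable def Dm {N : ℕ} (f : T2 → EuclideanSpace ℝ (Fin N)) (x : T2) :
    EuclideanSpace ℝ (Fin 1) × EuclideanSpace ℝ (Fin 1) →L[ℝ] EuclideanSpace ℝ (Fin N) :=
  mfderiv ((𝓡 1).prod (𝓡 1)) (𝓡 N) f x

/-- the affine tangent space of a map of the torus at a point -/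
noncomputable def tangentAff {N : ℕ} (f : T2 → EuclideanSpace ℝ (Fin N)) (x : T2) :
    AffineSubspace ℝ (EuclideanSpace ℝ (Fin N)) :=
  AffineSubspace.mk' (f x) (LinearMap.range (Dm f x).toLinearMap)

/-- The map is a smooth immersion, and its affine tangent spaces at points with different images are
skew. -/
def TotallySkewImmersion {N : ℕ} (f : T2 → EuclideanSpace ℝ (Fin N)) : Prop :=
  Smooth f ∧ (∀ x, Function.Injective (Dm f x)) ∧
    ∀ x y, f x ≠ f y → Skew (tangentAff f x) (tangentAff f y)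

/-- a totally skew embedding -/
def TotallySkewEmbedding {N : ℕ} (f : T2 → EuclideanSpace ℝ (Fin N)) : Prop :=
  TotallySkewImmersion f ∧ Topology.IsEmbedding f

instance factS1 : Fact (Module.finrank ℝ (EuclideanSpace ℝ (Fin 2)) = 1 + 1) := ⟨by simp⟩

/-- the inclusion of the torus in four-space -/
def incl (x : T2) : E2 × E2 := ((x.1 : E2), (x.2 : E2))

theorem incl_smooth : ContMDiff ((𝓡 1).prod (𝓡 1)) 𝓘(ℝ, E2 × E2) ∞ incl := by
  have h : ContMDiff (𝓡 1) 𝓘(ℝ, E2) ∞ ((↑) : S1 → E2) :=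
    contMDiff_coe_sphere (m := ∞) (n := 1) (E := E2)
  exact (h.comp contMDiff_fst).prodMk_space (h.comp contMDiff_snd)

/-- derivative of the inclusion of the circle -/
noncomputable def dc (p : S1) : EuclideanSpace ℝ (Fin 1) →L[ℝ] E2 :=
  mfderiv (𝓡 1) 𝓘(ℝ, E2) ((↑) : S1 → E2) p

theorem dc_perp (p : S1) (u : EuclideanSpace ℝ (Fin 1)) :
    inner ℝ (p : E2) (dc p u) = (0 : ℝ) := by
  have h := range_mfderiv_coe_sphere (n := 1) (E := E2) p
  have h1 : mfderiv (𝓡 1) 𝓘(ℝ, E2) ((↑) : S1 → E2) p u ∈ (ℝ ∙ (p : E2))ᗮ := by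
    rw [← h]
    exact ⟨u, rfl⟩
  exact Submodule.mem_orthogonal_singleton_iff_inner_right.1 h1

theorem dc_inj (p : S1) {u : EuclideanSpace ℝ (Fin 1)} (h : dc p u = 0) : u = 0 := by
  have h2 := mfderiv_coe_sphere_injective (n := 1) (E := E2) p
  exact (injective_iff_map_eq_zero _).1 h2 u h

theorem dincl (x : T2) (u : EuclideanSpace ℝ (Fin 1) × EuclideanSpace ℝ (Fin 1)) :
    (mfderiv ((𝓡 1).prod (𝓡 1)) 𝓘(ℝ, E2 × E2) incl x u : E2 × E2) = (dc x.1 u.1, dc x.2 u.2) := by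
  have hd : MDifferentiableAt ((𝓡 1).prod (𝓡 1)) 𝓘(ℝ, E2 × E2) incl x :=
    incl_smooth.mdifferentiableAt (by simp)
  have hs : ∀ p : S1, MDifferentiableAt (𝓡 1) 𝓘(ℝ, E2) ((↑) : S1 → E2) p := fun p =>
    (contMDiff_coe_sphere (m := 1) (n := 1) (E := E2) p).mdifferentiableAt one_ne_zero
  refine Prod.ext ?_ ?_
  · have hf : MDifferentiableAt 𝓘(ℝ, E2 × E2) 𝓘(ℝ, E2) (Prod.fst : E2 × E2 → E2) (incl x) :=
      differentiableAt_fst.mdifferentiableAt
    have h3 := mfderiv_comp x hf hd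
    have h4 := mfderiv_comp x (hs x.1) (mdifferentiableAt_fst (I := 𝓡 1) (I' := 𝓡 1) (x := x))
    have e : (Prod.fst ∘ incl : T2 → E2) = ((↑) : S1 → E2) ∘ (Prod.fst : T2 → S1) := rfl
    rw [e, h4] at h3
    have h5 := congrArg (fun L => L u) h3
    have h6 : mfderiv 𝓘(ℝ, E2 × E2) 𝓘(ℝ, E2) (Prod.fst : E2 × E2 → E2) (incl x) =
      ContinuousLinearMap.fst ℝ E2 E2 := by rw [mfderiv_eq_fderiv]; exact fderiv_fst
    rw [h6] at h5
    rw [mfderiv_fst] at h5
    exact h5.symm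
  · have hf : MDifferentiableAt 𝓘(ℝ, E2 × E2) 𝓘(ℝ, E2) (Prod.snd : E2 × E2 → E2) (incl x) :=
      differentiableAt_snd.mdifferentiableAt
    have h3 := mfderiv_comp x hf hd
    have h4 := mfderiv_comp x (hs x.2) (mdifferentiableAt_snd (I := 𝓡 1) (I' := 𝓡 1) (x := x))
    have e : (Prod.snd ∘ incl : T2 → E2) = ((↑) : S1 → E2) ∘ (Prod.snd : T2 → S1) := rfl
    rw [e, h4] at h3
    have h5 := congrArg (fun L => L u) h3
    have h6 : mfderiv 𝓘(ℝ, E2 × E2) 𝓘(ℝ, E2) (Prod.snd : E2 × E2 → E2) (incl x) =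
      ContinuousLinearMap.snd ℝ E2 E2 := by rw [mfderiv_eq_fderiv]; exact fderiv_snd
    rw [h6] at h5
    rw [mfderiv_snd] at h5
    exact h5.symm

/-- the chain rule for a map given on four-space -/
theorem chain {N : ℕ} (g : E2 × E2 → EuclideanSpace ℝ (Fin N)) (hg : ContDiff ℝ ∞ g) (x : T2)
    (u : EuclideanSpace ℝ (Fin 1) × EuclideanSpace ℝ (Fin 1)) :
    Dm (fun z => g (incl z)) x u = fderiv ℝ g (incl x) (dc x.1 u.1, dc x.2 u.2) := by
  have h1 : MDifferentiableAt ((𝓡 1).prod (𝓡 1)) 𝓘(ℝ, E2 × E2) incl x :=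
    incl_smooth.mdifferentiableAt (by simp)
  have h2 : MDifferentiableAt 𝓘(ℝ, E2 × E2) (𝓡 N) g (incl x) :=
    ((hg.differentiable (by simp)) (incl x)).mdifferentiableAt
  have h3 := mfderiv_comp x h2 h1
  have h4 : (g ∘ incl) = fun z : T2 => g (incl z) := rfl
  rw [h4] at h3
  have h5 := congrArg (fun L => L u) h3
  have h6 : (mfderiv ((𝓡 1).prod (𝓡 1)) (𝓡 N) (fun z : T2 => g (incl z)) x u :
      EuclideanSpace ℝ (Fin N)) = fderiv ℝ g (incl x)
        (mfderiv ((𝓡 1).prod (𝓡 1)) 𝓘(ℝ, E2 × E2) incl x u : E2 × E2) := by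
    rw [← mfderiv_eq_fderiv]
    exact h5
  rw [dincl] at h6
  exact h6

theorem aux {V : Type} [AddCommGroup V] (p a b : V) : p - a - (p - b) + (a - b) = 0 := by abel

/-- the criterion -/
theorem criterion {N : ℕ} (g : E2 × E2 → EuclideanSpace ℝ (Fin N)) (hg : ContDiff ℝ ∞ g)
    (hi : ∀ x : T2, ∀ w : E2 × E2, inner ℝ (x.1 : E2) w.1 = (0 : ℝ) →
      inner ℝ (x.2 : E2) w.2 = (0 : ℝ) → fderiv ℝ g (incl x) w = 0 → w = 0)
    (hs : ∀ x y : T2, g (incl x) ≠ g (incl y) → ∀ u v : E2 × E2,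
      inner ℝ (x.1 : E2) u.1 = (0 : ℝ) → inner ℝ (x.2 : E2) u.2 = (0 : ℝ) →
      inner ℝ (y.1 : E2) v.1 = (0 : ℝ) → inner ℝ (y.2 : E2) v.2 = (0 : ℝ) → ∀ t : ℝ,
      fderiv ℝ g (incl x) u - fderiv ℝ g (incl y) v + t • (g (incl x) - g (incl y)) = 0 →
        u = 0 ∧ t = 0) :
    TotallySkewImmersion (fun z : T2 => g (incl z)) := by
  refine ⟨?_, fun x => ?_, fun x y hxy => ⟨?_, ?_⟩⟩
  · exact ContMDiff.comp (I' := 𝓘(ℝ, E2 × E2)) hg.contMDiff incl_smooth
  · rw [injective_iff_map_eq_zero]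
    intro u hu
    rw [chain g hg x u] at hu
    have h1 := hi x _ (dc_perp x.1 u.1) (dc_perp x.2 u.2) hu
    exact Prod.ext (dc_inj x.1 (congrArg Prod.fst h1)) (dc_inj x.2 (congrArg Prod.snd h1))
  · rw [Set.eq_empty_iff_forall_notMem]
    rintro p ⟨h1, h2⟩
    rw [SetLike.mem_coe, tangentAff, AffineSubspace.mem_mk'] at h1 h2
    obtain ⟨u, hu⟩ := h1
    obtain ⟨v, hv⟩ := h2
    have hu' : Dm (fun z : T2 => g (incl z)) x u = p - g (incl x) := hu
    have hv' : Dm (fun z : T2 => g (incl z)) y v = p - g (incl y) := hv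
    rw [chain g hg x u] at hu'
    rw [chain g hg y v] at hv'
    have key : fderiv ℝ g (incl x) (dc x.1 u.1, dc x.2 u.2) -
        fderiv ℝ g (incl y) (dc y.1 v.1, dc y.2 v.2) + (1 : ℝ) • (g (incl x) - g (incl y)) = 0 := by
      rw [hu', hv', one_smul]
      exact aux p (g (incl x)) (g (incl y))
    have h9 := hs x y hxy (dc x.1 u.1, dc x.2 u.2) (dc y.1 v.1, dc y.2 v.2) (dc_perp x.1 u.1)
      (dc_perp x.2 u.2) (dc_perp y.1 v.1) (dc_perp y.2 v.2) 1 key
    exact one_ne_zero h9.2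
  · rw [Submodule.eq_bot_iff]
    rintro p ⟨h1, h2⟩
    rw [SetLike.mem_coe, tangentAff, AffineSubspace.direction_mk'] at h1 h2
    obtain ⟨u, hu⟩ := h1
    obtain ⟨v, hv⟩ := h2
    have hu' : Dm (fun z : T2 => g (incl z)) x u = p := hu
    have hv' : Dm (fun z : T2 => g (incl z)) y v = p := hv
    rw [chain g hg x u] at hu'
    rw [chain g hg y v] at hv'
    have key : fderiv ℝ g (incl x) (dc x.1 u.1, dc x.2 u.2) -
        fderiv ℝ g (incl y) (dc y.1 v.1, dc y.2 v.2) + (0 : ℝ) • (g (incl x) - g (incl y)) = 0 := by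
      rw [hu', hv', zero_smul, sub_self, add_zero]
    have h9 := hs x y hxy (dc x.1 u.1, dc x.2 u.2) (dc y.1 v.1, dc y.2 v.2) (dc_perp x.1 u.1)
      (dc_perp x.2 u.2) (dc_perp y.1 v.1) (dc_perp y.2 v.2) 0 key
    rw [← hu', h9.1, map_zero]

/-- the derivative read off along a line, for quadratic maps -/
theorem fderiv_line {E F : Type} [NormedAddCommGroup E] [NormedSpace ℝ E] [NormedAddCommGroup F]
    [NormedSpace ℝ F] (g : E → F) (x w : E) (hg : DifferentiableAt ℝ g x) (A B : F)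
    (h : ∀ s : ℝ, g (x + s • w) = g x + s • A + (s * s) • B) : fderiv ℝ g x w = A := by
  have h1 : HasDerivAt (fun s : ℝ => g (x + s • w)) (fderiv ℝ g x w) 0 := by
    have h2 : HasDerivAt (fun s : ℝ => x + s • w) w 0 := by
      have := ((hasDerivAt_id (0 : ℝ)).smul_const w).const_add x
      simpa using this
    have h3 : HasFDerivAt g (fderiv ℝ g x) (x + (0 : ℝ) • w) := by
      simpa using hg.hasFDerivAt
    exact h3.comp_hasDerivAt 0 h2
  have h4 : HasDerivAt (fun s : ℝ => g x + s • A + (s * s) • B) A 0 := by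
    have e1 := ((hasDerivAt_id (0 : ℝ)).smul_const A).const_add (g x)
    have e2 := ((hasDerivAt_id (0 : ℝ)).mul (hasDerivAt_id (0 : ℝ))).smul_const B
    have e3 := e1.add e2
    have e4 : ((fun x_1 : ℝ => g x + id x_1 • A) + fun y : ℝ => (id y * id y) • B) =
      fun s : ℝ => g x + s • A + (s * s) • B := rfl
    have e5 : (1 : ℝ) • A + (1 * id (0 : ℝ) + id (0 : ℝ) * 1) • B = A := by simp
    rw [e5] at e3
    rw [← e4]
    exact e3
  have h5 : (fun s : ℝ => g (x + s • w)) = fun s : ℝ => g x + s • A + (s * s) • B := funext h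
  rw [h5] at h1
  exact h1.unique h4

theorem inner2 (x w : E2) : inner ℝ x w = (x 0 * w 0 + x 1 * w 1 : ℝ) := by
  rw [PiLp.inner_apply, Fin.sum_univ_two]
  simp only [RCLike.inner_apply, conj_trivial]
  ring

theorem unit2 (x : S1) : (x : E2) 0 * (x : E2) 0 + (x : E2) 1 * (x : E2) 1 = 1 := by
  rw [← inner2, real_inner_self_eq_norm_sq]
  have : ‖(x : E2)‖ = 1 := by simpa using x.2
  rw [this]; norm_num

theorem ext2 {a b : E2} (h0 : a 0 = b 0) (h1 : a 1 = b 1) : a = b := by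
  ext i
  fin_cases i
  · exact h0
  · exact h1

end Pool.Agent.H69.SkewTorus
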